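import Pool.Agent.MP_6b7ec3_an.Sh.Mob

/-! The right-angled hexagon: three half turns `sm` and three mirrors `rm`. -/

open Complex
open scoped ComplexConjugate ContDiff

namespace Pool.Agent.MP_6b7ec3_an.Sh

/-- The range of the parameter. -/
structure Ok (γ : ℝ) : Prop where
  lo : 1 < γ
  hi : γ ≤ 9 / 8

variable (γ : ℝ)

/-- The half turns. -/
noncomputable def sm (j : Fin 3) : ℂ → ℂ := mo ((γ / 2 : ℝ) * u j)

/-- The mirrors. -/
noncomputable def rm (k : Fin 3) (z : ℂ) : ℂ := u k ^ 2 * conj (mo ((-1 / γ : ℝ) * u k) z)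

/-- Equation of the long sides. -/
noncomputable def qa (j : Fin 3) (z : ℂ) : ℝ := γ * nn z - 4 * ip z (u j)

/-- Equation of the short sides. -/
noncomputable def qb (k : Fin 3) (z : ℂ) : ℝ := nn z + 2 * γ * ip z (u k)

/-- The Lorentz product with the mirror image. -/
noncomputable def l1 (k : Fin 3) (z w : ℂ) : ℝ := l0 z w + 2 / (γ ^ 2 - 1) * qb γ k z * qb γ k w

/-- Denominator of a half turn. -/
noncomputable def DS (j : Fin 3) : ℂ → ℝ := DD ((γ / 2 : ℝ) * u j)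

/-- Denominator of a mirror. -/
noncomputable def DR (k : Fin 3) : ℂ → ℝ := DD ((-1 / γ : ℝ) * u k)

/-- Modulus of the derivative of a half turn. -/
noncomputable def JS (j : Fin 3) (w : ℂ) : ℝ := (1 - (γ / 2) ^ 2) / DS γ j w

/-- Normalised equation of the long sides. -/
noncomputable def A (j : Fin 3) (z : ℂ) : ℝ := qa γ j z / dl z

/-- Normalised equation of the short sides. -/
noncomputable def B (k : Fin 3) (z : ℂ) : ℝ := qb γ k z / dl z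

/-- The inverse of the Poisson kernel. -/
noncomputable def P0 (z w : ℂ) : ℝ := l0 z w / dl z

/-- The inverse of the Poisson kernel at the mirror image. -/
noncomputable def P1 (k : Fin 3) (z w : ℂ) : ℝ := l1 γ k z w / dl z

variable {γ}

theorem thr_ne {j k : Fin 3} (h : j ≠ k) : j ≠ -j - k := by
  revert j k
  decide

theorem thr_thr (j k : Fin 3) : -j - (-j - k) = k := by abel

theorem norm_lt {z : ℂ} (hz : 0 ≤ dl z) : ‖z‖ < 3 / 2 :=
  ((dl_nonneg_iff z).1 hz).trans_lt (by norm_num)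

theorem P0_pos {z : ℂ} (hz : 0 < dl z) (w : ℂ) : 0 < P0 z w := div_pos (l0_pos hz w) hz

namespace Ok

variable (h : Ok γ)
include h

theorem pos : 0 < γ := one_pos.trans h.lo

theorem ka : 0 < 1 - (γ / 2) ^ 2 := by nlinarith [h.lo, h.hi]

theorem r2 : 0 < γ ^ 2 - 1 := by nlinarith [h.lo]

theorem kb : 0 < 1 - (-1 / γ) ^ 2 := by
  have := h.pos
  rw [show 1 - (-1 / γ) ^ 2 = (γ ^ 2 - 1) / γ ^ 2 by field_simp]
  exact div_pos h.r2 (by positivity)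

theorem dl_a (j : Fin 3) : 0 < dl ((γ / 2 : ℝ) * u j) := by
  rw [dl_real (normSq_u j)]
  exact h.ka

theorem dl_b (k : Fin 3) : 0 < dl ((-1 / γ : ℝ) * u k) := by
  rw [dl_real (normSq_u k)]
  exact h.kb

theorem norm_a (j : Fin 3) {w : ℂ} (hw : ‖w‖ < 3 / 2) : ‖(γ / 2 : ℝ) * u j‖ * ‖w‖ < 1 := by
  rw [norm_mul, norm_u, norm_real, Real.norm_of_nonneg (half_pos h.pos).le]
  nlinarith [h.lo, h.hi, norm_nonneg w]

theorem DS_pos (j : Fin 3) {w : ℂ} (hw : ‖w‖ < 3 / 2) : 0 < DS γ j w := DD_pos (h.norm_a j hw)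

theorem DR_pos (k : Fin 3) {z : ℂ} (hz : 0 < dl z) : 0 < DR γ k z := DD_pos' (h.dl_b k) hz.le

theorem JS_pos (j : Fin 3) {w : ℂ} (hw : ‖w‖ < 3 / 2) : 0 < JS γ j w :=
  div_pos h.ka (h.DS_pos j hw)

theorem sm_sm (j : Fin 3) {w : ℂ} (hw : ‖w‖ < 3 / 2) : sm γ j (sm γ j w) = w :=
  mo_mo (h.dl_a j) (h.DS_pos j hw)

theorem dl_sm (j : Fin 3) {w : ℂ} (hw : ‖w‖ < 3 / 2) : dl (sm γ j w) = JS γ j w * dl w := by
  rw [JS, div_mul_eq_mul_div, eq_div_iff (h.DS_pos j hw).ne', ← dl_real (normSq_u j)]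
  exact dl_mo (h.DS_pos j hw)

theorem sm_pos (j : Fin 3) {z : ℂ} (hz : 0 < dl z) : 0 < dl (sm γ j z) := dl_mo_pos (h.dl_a j) hz

theorem qa_sm (j : Fin 3) {w : ℂ} (hw : ‖w‖ < 3 / 2) :
    qa γ j (sm γ j w) = JS γ j w * -qa γ j w := by
  have h0 := h.DS_pos j hw
  have h1 := nn_mo h0
  have h2 := ip_mo (normSq_u j) h0 (u j)
  rw [l0_real (normSq_u j)] at h1
  rw [ip_self, normSq_u] at h2
  rw [JS, div_mul_eq_mul_div, eq_div_iff h0.ne']
  unfold qa sm DS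
  linear_combination γ * h1 - 4 * h2

theorem qb_sm {j k : Fin 3} (hjk : j ≠ k) {w : ℂ} (hw : ‖w‖ < 3 / 2) :
    qb γ (-j - k) (sm γ j w) = JS γ j w * qb γ k w := by
  have h0 := h.DS_pos j hw
  have h1 := nn_mo h0
  have h2 := ip_mo (normSq_u j) h0 (u (-j - k))
  rw [l0_real (normSq_u j)] at h1
  rw [ip_u (thr_ne hjk)] at h2
  rw [JS, div_mul_eq_mul_div, eq_div_iff h0.ne']
  unfold qb sm DS
  linear_combination h1 + 2 * γ * h2 - 2 * γ * (1 - (γ / 2) ^ 2) * ip_sum hjk w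

theorem l0_sm (j : Fin 3) {z w : ℂ} (hz : ‖z‖ < 3 / 2) (hw : ‖w‖ < 3 / 2) :
    l0 (sm γ j z) (sm γ j w) = JS γ j z * (JS γ j w * l0 z w) := by
  have h1 := h.DS_pos j hz
  have h2 := h.DS_pos j hw
  have h3 := l0_mo h1 h2
  rw [dl_real (normSq_u j)] at h3
  rw [JS, JS, ← mul_assoc, div_mul_div_comm, div_mul_eq_mul_div, eq_div_iff (by positivity), ← sq]
  exact h3

theorem A_sm (j : Fin 3) {z : ℂ} (hz : 0 < dl z) : A γ j (sm γ j z) = -A γ j z := by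
  have h0 := norm_lt hz.le
  rw [A, h.qa_sm j h0, h.dl_sm j h0, mul_div_mul_left _ _ (h.JS_pos j h0).ne', neg_div, A]

theorem B_sm {j k : Fin 3} (hjk : j ≠ k) {z : ℂ} (hz : 0 < dl z) :
    B γ (-j - k) (sm γ j z) = B γ k z := by
  have h0 := norm_lt hz.le
  rw [B, h.qb_sm hjk h0, h.dl_sm j h0, mul_div_mul_left _ _ (h.JS_pos j h0).ne', B]

theorem P0_sm (j : Fin 3) {z w : ℂ} (hz : 0 < dl z) (hw : ‖w‖ < 3 / 2) :
    P0 (sm γ j z) (sm γ j w) = JS γ j w * P0 z w := by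
  have h0 := norm_lt hz.le
  rw [P0, h.l0_sm j h0 hw, h.dl_sm j h0, mul_div_mul_left _ _ (h.JS_pos j h0).ne', P0, mul_div_assoc]

theorem P1_sm {j k : Fin 3} (hjk : j ≠ k) {z w : ℂ} (hz : 0 < dl z) (hw : ‖w‖ < 3 / 2) :
    P1 γ (-j - k) (sm γ j z) (sm γ j w) = JS γ j w * P1 γ k z w := by
  have h0 := norm_lt hz.le
  rw [P1, l1, h.l0_sm j h0 hw, h.dl_sm j h0, h.qb_sm hjk h0, h.qb_sm hjk hw, P1, l1,
    ← mul_div_assoc, ← mul_div_mul_left _ (dl z) (h.JS_pos j h0).ne']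
  congr 1
  ring

theorem dl_rm (k : Fin 3) {z : ℂ} (hz : 0 < dl z) :
    dl (rm γ k z) * DR γ k z = (1 - (-1 / γ) ^ 2) * dl z := by
  rw [← dl_real (normSq_u k), ← dl_mo (h.DR_pos k hz)]
  simp [rm, dl, normSq_u, DR]

theorem rm_pos (k : Fin 3) {z : ℂ} (hz : 0 < dl z) : 0 < dl (rm γ k z) :=
  (mul_pos_iff_of_pos_right (h.DR_pos k hz)).1 (h.dl_rm k hz ▸ mul_pos h.kb hz)

theorem nn_rm (k : Fin 3) {z : ℂ} (hz : 0 < dl z) :
    nn (rm γ k z) * DR γ k z = (1 + (-1 / γ) ^ 2) * nn z - 4 * (-1 / γ) * ip z (u k) := by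
  rw [← l0_real (normSq_u k), ← nn_mo (h.DR_pos k hz)]
  simp [rm, nn, normSq_u, DR]

theorem ip_rm (k : Fin 3) {z : ℂ} (hz : 0 < dl z) (v : ℂ) : ip (rm γ k z) v * DR γ k z =
    (-1 / γ * nn z - 2 * ip z (u k)) * ip (u k) v + (1 - (-1 / γ) ^ 2) * ip z v := by
  have h1 := ip_mo (normSq_u k) (h.DR_pos k hz) v
  have h2 := ip_mo (normSq_u k) (h.DR_pos k hz) (u k)
  rw [ip_self, normSq_u] at h2
  rw [rm, ip_rf (normSq_u k), DR]
  linear_combination 2 * ip (u k) v * h2 - h1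

theorem A_rm {i k : Fin 3} (hik : k ≠ i) {z : ℂ} (hz : 0 < dl z) :
    A γ i (rm γ k z) = A γ i z := by
  refine rat (h.DR_pos k hz) h.kb ?_ (h.dl_rm k hz)
  have := h.pos
  rw [qa, sub_mul, mul_assoc, mul_assoc, h.nn_rm k hz, h.ip_rm k hz, ip_u hik, qa]
  field_simp
  ring

theorem B_rm (k : Fin 3) {z : ℂ} (hz : 0 < dl z) : B γ k (rm γ k z) = -B γ k z := by
  rw [B, B, ← neg_div]
  refine rat (h.DR_pos k hz) h.kb ?_ (h.dl_rm k hz)
  have := h.pos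
  rw [qb, add_mul, mul_assoc, h.nn_rm k hz, h.ip_rm k hz, ip_self, normSq_u, qb]
  field_simp
  ring

theorem P0_rm (k : Fin 3) {z : ℂ} (hz : 0 < dl z) (w : ℂ) : P0 (rm γ k z) w = P1 γ k z w := by
  refine rat (h.DR_pos k hz) h.kb ?_ (h.dl_rm k hz)
  have := h.pos
  have := h.r2
  rw [l0, sub_mul, mul_right_comm, mul_assoc 4, h.nn_rm k hz, h.ip_rm k hz, l1, l0, qb, qb,
    ip_comm (u k)]
  field_simp
  ring

theorem P1_pos (k : Fin 3) {z : ℂ} (hz : 0 < dl z) (w : ℂ) : 0 < P1 γ k z w :=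
  h.P0_rm k hz w ▸ P0_pos (h.rm_pos k hz) w

omit h in
theorem P1_eq (k : Fin 3) (z w : ℂ) :
    P1 γ k z w = P0 z w + 2 / (γ ^ 2 - 1) * B γ k z * qb γ k w := by
  rw [P1, P0, l1, B]
  ring

theorem P1_rm (k : Fin 3) {z : ℂ} (hz : 0 < dl z) (w : ℂ) : P1 γ k (rm γ k z) w = P0 z w := by
  rw [P1_eq, h.P0_rm k hz, h.B_rm k hz, P1_eq]
  ring

theorem rm_rm (k : Fin 3) {z : ℂ} (hz : 0 < dl z) : rm γ k (rm γ k z) = z :=
  ext_l0 (h.rm_pos k (h.rm_pos k hz)) hz fun w _ =>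
    (h.P0_rm k (h.rm_pos k hz) w).trans (h.P1_rm k hz w)

theorem sm_rm {j k : Fin 3} (hjk : j ≠ k) {z : ℂ} (hz : 0 < dl z) :
    sm γ j (rm γ k z) = rm γ (-j - k) (sm γ j z) := by
  refine ext_l0 (h.sm_pos j (h.rm_pos k hz)) (h.rm_pos _ (h.sm_pos j hz)) fun w hw => ?_
  have h1 := norm_lt (h.sm_pos j hw).le
  rw [← h.sm_sm j (norm_lt hw.le)]
  change P0 _ _ = P0 _ _
  rw [h.P0_sm j (h.rm_pos k hz) h1, h.P0_rm k hz, h.P0_rm _ (h.sm_pos j hz), h.P1_sm hjk hz h1]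

omit h in
theorem AA {i j : Fin 3} (hij : i ≠ j) {z : ℂ} (hz : 0 < dl z) :
    2 * (γ - 1) * (nn z / dl z) ≤ A γ i z + A γ j z := by
  rw [A, A, ← add_div, ← mul_div_assoc]
  refine div_le_div_of_nonneg_right ?_ hz.le
  unfold qa
  linarith [ip_sum hij z, (ip_le (-i - j) z).2]

theorem BB {i j : Fin 3} (hij : i ≠ j) {z : ℂ} (hz : 0 < dl z) :
    7 / 8 * (nn z / dl z) ≤ B γ i z + B γ j z := by
  rw [B, B, ← add_div, ← mul_div_assoc]
  refine div_le_div_of_nonneg_right ?_ hz.le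
  have h1 := mul_le_mul_of_nonneg_left (ip_le (-i - j) z).1 h.pos.le
  have h2 := mul_le_mul_of_nonneg_right h.hi (zero_le_one.trans (one_le_nn z))
  have h3 := ip_sum hij z
  unfold qb
  linear_combination h1 + h2 - 2 * γ * h3

omit h in
theorem AB (k : Fin 3) (z : ℂ) : γ * A γ k z + 2 * B γ k z = (γ ^ 2 + 2) * (nn z / dl z) := by
  rw [A, B, qa, qb]
  ring

omit h in
theorem one_le {z : ℂ} (hz : 0 < dl z) : 1 ≤ nn z / dl z :=
  (one_le_div hz).2 ((dl_le_one z).trans (one_le_nn z))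

/-- Near a long side the opposite short side is far away. -/
theorem B_far {j : Fin 3} {z : ℂ} (hz : 0 < dl z) (ha : A γ j z < (γ - 1) / 8) :
    1 / 2 ≤ B γ j z := by
  nlinarith [AB (γ := γ) j z, one_le hz, h.lo, h.hi, mul_lt_mul_of_pos_left ha h.pos]

theorem A_far {j : Fin 3} {z : ℂ} (hz : 0 < dl z) (hb : B γ j z < (γ - 1) / 8) :
    1 / 2 ≤ A γ j z := by
  by_contra hc
  nlinarith [AB (γ := γ) j z, one_le hz, h.lo, h.hi, mul_lt_mul_of_pos_left (not_le.1 hc) h.pos]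

theorem A_other {i j : Fin 3} (hij : i ≠ j) {z : ℂ} (hz : 0 < dl z)
    (ha : A γ j z < (γ - 1) / 8) : γ - 1 ≤ A γ i z := by
  nlinarith [AA (γ := γ) hij hz, one_le hz, h.lo]

theorem B_other {i j : Fin 3} (hij : i ≠ j) {z : ℂ} (hz : 0 < dl z)
    (hb : B γ j z < (γ - 1) / 8) : 1 / 2 ≤ B γ i z := by
  linarith [h.BB hij hz, one_le hz, h.hi]

/-- Near a mirror the two kernels are comparable. -/
theorem ratio {k : Fin 3} {z : ℂ} (hz : 0 < dl z) (hb : |B γ k z| < (γ - 1) / 8) (w : ℂ) :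
    P0 z w ≤ 2 * P1 γ k z w := by
  rw [P0, P1, ← mul_div_assoc]
  refine div_le_div_of_nonneg_right ?_ hz.le
  have h1 := h.r2
  have h2 := h.lo
  obtain ⟨t, ht⟩ : ∃ t, t * (γ ^ 2 - 1) = 4 * qb γ k z := ⟨_, div_mul_cancel₀ _ h1.ne'⟩
  rw [B, abs_div, abs_of_pos hz, div_lt_iff₀ hz, abs_lt] at hb
  have h3 : (γ - 1) * dl z ≤ γ ^ 2 - 1 := by nlinarith [dl_le_one z]
  have h4 : -1 ≤ t := le_of_mul_le_mul_right (by linarith [hb.1]) h1
  have h5 : (8 * qb γ k z) ^ 2 ≤ ((γ - 1) * dl z) ^ 2 :=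
    sq_le_sq' (by linarith [hb.1]) (by linarith [hb.2])
  have h6 : 2 * (t * qb γ k z) ≤ dl z ^ 2 := by
    refine le_of_mul_le_mul_right ?_ h1
    have : (γ - 1) ^ 2 * dl z ^ 2 ≤ (γ ^ 2 - 1) * dl z ^ 2 :=
      mul_le_mul_of_nonneg_right (by nlinarith) (sq_nonneg _)
    nlinarith [sq_nonneg (dl z), mul_nonneg h1.le (sq_nonneg (dl z))]
  have h7 := cone (T := nn z + t) (V := 2 * z - (t * γ : ℝ) * u k) (by linarith [one_le_nn z]) (by
    have e := normSq_u k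
    simp only [qb, nn, dl, ip, normSq_apply, sub_re, sub_im, mul_re, mul_im, ofReal_re, ofReal_im,
      re_ofNat, im_ofNat] at e ht h6 ⊢
    linear_combination h6 + t ^ 2 * γ ^ 2 * e + t * ht) w
  have h8 : 2 / (γ ^ 2 - 1) * qb γ k z = t / 2 := by
    field_simp
    linarith
  rw [l1, h8, l0, qb]
  simp only [ip, sub_re, sub_im, mul_re, mul_im, ofReal_re, ofReal_im, re_ofNat, im_ofNat] at h7 ⊢
  linarith

end Ok

end Pool.Agent.MP_6b7ec3_an.Sh
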