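import Mathlib.MeasureTheory.Measure.Hausdorff
import Mathlib.MeasureTheory.Integral.CircleIntegral
import Mathlib.Analysis.SpecialFunctions.Trigonometric.Bounds
import Pool.Agent.MP_6b7ec3_an.Calc
import Pool.Agent.MP_6b7ec3_an.Sh.Geo

/-!
A non-constant bounded holomorphic function on the disc invariant under the three half turns.
The images of a free boundary arc are disjoint, so the Poincare series of the Cayley map converges.
-/

open Set Topology Filter Complex MeasureTheory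
open scoped ContDiff ComplexConjugate

namespace Pool.Agent.MP_6b7ec3_an.Sh

theorem dist_le_measure {s : Set ℂ} (hs : IsPreconnected s) {p q : ℂ} (hp : p ∈ s) (hq : q ∈ s) :
    ENNReal.ofReal ‖q - p‖ ≤ μH[1] s := by
  have h1 := (LipschitzWith.dist_left p).hausdorffMeasure_image_le zero_le_one s
  have h2 := measure_mono (μ := volume) ((hs.image _
    (LipschitzWith.dist_left p).continuous.continuousOn).Icc_subset ⟨p, hp, rfl⟩ ⟨q, hq, rfl⟩)
  rw [hausdorffMeasure_real] at h1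
  simpa [dist_eq_norm] using h2.trans h1

theorem measure_circle : μH[1] (Metric.sphere (0 : ℂ) 1) ≠ ⊤ := by
  have h := (lipschitzWith_circleMap 0 1).hausdorffMeasure_image_le zero_le_one
    (Ioc 0 (2 * Real.pi))
  rw [image_circleMap_Ioc, abs_one, hausdorffMeasure_real] at h
  exact ne_top_of_le_ne_top (by simp [ENNReal.mul_ne_top]) h

/-- The Cayley map. -/
noncomputable def cay (x : ℂ) : ℂ := (1 - x) / (1 + x)

theorem cay_re (x : ℂ) : (cay x).re = dl x / normSq (1 + x) := by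
  simp only [cay, div_re, dl, normSq_apply x, sub_re, sub_im, add_re, add_im, one_re, one_im]
  ring

theorem one_add_ne {x : ℂ} (hx : 0 < dl x) : 1 + x ≠ 0 := fun e => by
  simp [eq_neg_of_add_eq_zero_right e, dl] at hx

theorem cay_pos {x : ℂ} (hx : 0 < dl x) : 0 < (cay x).re :=
  cay_re x ▸ div_pos hx (normSq_pos.2 (one_add_ne hx))

theorem cay_sub {x y : ℂ} {T : ℝ} (hx : 0 < dl x) (hy : 0 < dl y) (hT : 0 ≤ T)
    (h : normSq (x - y) ≤ T * (dl x * dl y)) : ‖cay y - cay x‖ ≤ (4 * T + 1) * (cay x).re := by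
  have h1 := normSq_pos.2 (one_add_ne hx)
  have h2 := normSq_pos.2 (one_add_ne hy)
  have h3 : ‖cay y - cay x‖ ^ 2 ≤ 4 * T * ((cay x).re * (cay y).re) := by
    rw [show cay y - cay x = 2 * (x - y) / ((1 + x) * (1 + y)) by
      rw [cay, cay, div_sub_div _ _ (one_add_ne hy) (one_add_ne hx), mul_comm (1 + y)]; ring_nf,
      ← normSq_eq_norm_sq, map_div₀, map_mul, map_mul, cay_re, cay_re, div_mul_div_comm,
      ← mul_div_assoc, normSq_ofNat]
    exact div_le_div_of_nonneg_right (by linarith) (by positivity)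
  have h4 := re_le_norm (cay y - cay x)
  rw [sub_re] at h4
  have h5 := cay_pos hx
  by_contra hc
  nlinarith [mul_nonneg hT h5.le, mul_le_mul_of_nonneg_left h4 (mul_nonneg hT h5.le),
    mul_pos h5 h5, mul_pos (sub_pos.2 (not_le.1 hc)) h5, mul_pos (sub_pos.2 (not_le.1 hc))
      (sub_pos.2 (not_le.1 hc)), mul_nonneg (sub_pos.2 (not_le.1 hc)).le (mul_nonneg hT h5.le)]

variable (γ : ℝ)

/-- Action of a word, first letter first. -/
noncomputable def fw (l : List (Fin 3)) (z : ℂ) : ℂ := l.foldl (fun z i => sm γ i z) z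

/-- Action of a word, last letter first. -/
noncomputable def bw (l : List (Fin 3)) (z : ℂ) : ℂ := l.foldr (sm γ) z

/-- The terms of the series. -/
noncomputable def tm (l : W) (w : ℂ) : ℂ := cay (fw γ l.1 w) - cay (fw γ l.1 0)

variable {γ}

theorem fw_cons (i : Fin 3) (l : List (Fin 3)) (z : ℂ) :
    fw γ (i :: l) z = fw γ l (sm γ i z) := rfl

theorem bw_cons (i : Fin 3) (l : List (Fin 3)) (z : ℂ) :
    bw γ (i :: l) z = sm γ i (bw γ l z) := rfl

theorem dl_zero : 0 < dl 0 := by simp [dl]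

namespace Ok

variable (h : Ok γ)
include h

theorem fw_pos (l : List (Fin 3)) {z : ℂ} (hz : 0 < dl z) : 0 < dl (fw γ l z) := by
  induction l generalizing z with
  | nil => exact hz
  | cons i l ih => exact ih (h.sm_pos i hz)

theorem bw_nonneg (l : List (Fin 3)) {z : ℂ} (hz : 0 ≤ dl z) : 0 ≤ dl (bw γ l z) := by
  induction l with
  | nil => exact hz
  | cons i l ih => exact h.dl_sm i (norm_lt ih) ▸ mul_nonneg (h.JS_pos i (norm_lt ih)).le ih

theorem bw_zero (l : List (Fin 3)) {z : ℂ} (hz : dl z = 0) : dl (bw γ l z) = 0 := by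
  induction l with
  | nil => exact hz
  | cons i l ih => exact (h.dl_sm i (norm_lt ih.ge)).trans (mul_eq_zero_of_right _ ih)

theorem qa_other {i j : Fin 3} (e : i ≠ j) {z : ℂ} (hz : qa γ j z < 0) : 0 < qa γ i z := by
  unfold qa at *
  nlinarith [ip_sum e z, (ip_le (-i - j) z).2, h.lo, one_le_nn z]

theorem pingpong {i : Fin 3} {l : List (Fin 3)} (hl : List.IsChain (· ≠ ·) (i :: l)) {z : ℂ}
    (hz : 0 ≤ dl z) (hq : ∀ j, 0 < qa γ j z) : qa γ i (bw γ (i :: l) z) < 0 := by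
  induction l generalizing i with
  | nil =>
    exact (h.qa_sm i (norm_lt hz)).trans_lt
      (mul_neg_of_pos_of_neg (h.JS_pos i (norm_lt hz)) (neg_lt_zero.2 (hq i)))
  | cons j l ih =>
    have h1 := norm_lt (h.bw_nonneg (j :: l) hz)
    rw [List.isChain_cons_cons] at hl
    exact (h.qa_sm i h1).trans_lt (mul_neg_of_pos_of_neg (h.JS_pos i h1)
      (neg_lt_zero.2 (h.qa_other hl.1 (ih hl.2))))

theorem bw_inj {l l' : List (Fin 3)} (hl : List.IsChain (· ≠ ·) l) (hl' : List.IsChain (· ≠ ·) l')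
    {z z' : ℂ} (hz : 0 ≤ dl z) (hq : ∀ j, 0 < qa γ j z) (hz' : 0 ≤ dl z')
    (hq' : ∀ j, 0 < qa γ j z') (e : bw γ l z = bw γ l' z') : l = l' := by
  induction l generalizing l' with
  | nil =>
    obtain _ | ⟨j, l'⟩ := l'
    · rfl
    · exact absurd (e ▸ h.pingpong hl' hz' hq' :) (hq j).not_gt
  | cons i l ih =>
    have h1 := h.pingpong hl hz hq
    obtain _ | ⟨j, l'⟩ := l'
    · exact absurd (e ▸ h1 :) (hq' i).not_gt
    obtain rfl : i = j := by
      by_contra c
      exact absurd (e ▸ h1) (h.qa_other c (h.pingpong hl' hz' hq')).not_gt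
    rw [ih (l' := l') hl.tail hl'.tail (by
      rw [← h.sm_sm i (norm_lt (h.bw_nonneg l hz)), ← h.sm_sm i (norm_lt (h.bw_nonneg l' hz'))]
      exact congrArg _ e)]

theorem near {x : ℂ} (hx : ‖1 + x‖ < (γ - 1) / 4) (j : Fin 3) : 0 < qa γ j x := by
  have h1 : ip (1 + x) (u j) ≤ ‖1 + x‖ := (abs_le_of_sq_le_sq' (by
    simpa [norm_u, normSq_eq_norm_sq] using ip_sq_le (1 + x) (u j)) (norm_nonneg _)).2
  have h2 : -1 / 2 ≤ (u j).re := by fin_cases j <;> norm_num [u]
  have h3 := re_le_norm (1 + x)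
  simp only [qa, nn, ip, normSq_apply, add_re, add_im, one_re, one_im, zero_add] at *
  nlinarith [h.lo, h.hi, mul_nonneg h.pos.le (sq_nonneg (1 + x.re)),
    mul_nonneg h.pos.le (mul_self_nonneg x.im), mul_le_mul_of_nonneg_left h3 h.pos.le]

theorem cross (l : List (Fin 3)) {z p q : ℂ} (hz : 0 < dl z) (hp : dl p = 0) (hq : dl q = 0) :
    l0 (bw γ l p) (bw γ l q) * (P0 (fw γ l z) p * P0 (fw γ l z) q) =
      l0 p q * (P0 z (bw γ l p) * P0 z (bw γ l q)) := by
  induction l generalizing z with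
  | nil => rfl
  | cons i l ih =>
    have h1 := norm_lt (h.bw_zero l hp).ge
    have h2 := norm_lt (h.bw_zero l hq).ge
    have h3 := h.P0_sm i (h.sm_pos i hz) h1
    have h4 := h.P0_sm i (h.sm_pos i hz) h2
    rw [h.sm_sm i (norm_lt hz.le)] at h3 h4
    rw [bw_cons, bw_cons, fw_cons, h.l0_sm i h1 h2, h3, h4]
    linear_combination JS γ i (bw γ l p) * JS γ i (bw γ l q) * ih (h.sm_pos i hz)

theorem chord (l : List (Fin 3)) {p q : ℂ} (hp : dl p = 0) (hq : dl q = 0) :
    ‖p - q‖ / 4 * dl (fw γ l 0) ≤ ‖bw γ l p - bw γ l q‖ := by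
  have h1 := h.cross l dl_zero hp hq
  have h2 := h.fw_pos l dl_zero
  have h3 : ∀ {w}, dl w = 0 → P0 0 w = 2 := fun {w} hw => by
    simp only [P0, l0, nn, dl, ip] at hw ⊢
    simp
    linarith
  have h4 : ∀ {w}, dl w = 0 → P0 (fw γ l 0) w * dl (fw γ l 0) ≤ 8 := fun {w} hw => by
    rw [P0, div_mul_cancel₀ _ h2.ne', l0_eq, hw, normSq_eq_norm_sq]
    nlinarith [norm_sub_le (fw γ l 0) w, (dl_nonneg_iff _).1 h2.le, (dl_nonneg_iff _).1 hw.ge,
      norm_nonneg (fw γ l 0 - w)]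
  rw [h3 (h.bw_zero l hp), h3 (h.bw_zero l hq), l0_eq, l0_eq p, h.bw_zero l hp, hp,
    normSq_eq_norm_sq, normSq_eq_norm_sq] at h1
  have h5 := mul_le_mul (h4 hp) (h4 hq) (mul_pos (P0_pos h2 q) h2).le (by norm_num)
  refine (abs_le_of_sq_le_sq' ?_ (norm_nonneg _)).2
  linear_combination ‖bw γ l p - bw γ l q‖ ^ 2 / 64 * h5 - dl (fw γ l 0) ^ 2 / 128 * h1

theorem cont_bw (l : List (Fin 3)) {z : ℂ} (hz : 0 ≤ dl z) : ContinuousAt (bw γ l) z := by
  induction l with
  | nil => exact continuousAt_id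
  | cons i l ih =>
    exact (contDiffAt_mo (h.norm_a i (norm_lt (h.bw_nonneg l hz)))).continuousAt.comp ih

theorem summable_dl : Summable fun l : W => dl (fw γ l.1 0) := by
  have : Countable W := inferInstanceAs (Countable {l : List (Fin 3) // _})
  have h0 : 0 < (γ - 1) / 8 := by linarith [h.lo]
  have h1 : ∀ t : ℝ, dl (-exp (I * t)) = 0 := fun t => by simp [dl, normSq_eq_norm_sq]
  have h2 : ∀ t ∈ Icc 0 ((γ - 1) / 8), ∀ j, 0 < qa γ j (-exp (I * t)) := fun t ht => h.near (by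
    rw [← sub_eq_add_neg, norm_sub_rev]
    exact Real.norm_exp_I_mul_ofReal_sub_one_le.trans_lt (by
      rw [Real.norm_of_nonneg ht.1]; linarith [ht.2]))
  set E : W → Set ℂ := fun l => (fun t : ℝ => bw γ l.1 (-exp (I * t))) '' Icc 0 ((γ - 1) / 8)
  have h3 : ∀ l : W, Continuous fun t : ℝ => bw γ l.1 (-exp (I * t)) := fun l =>
    continuous_iff_continuousAt.2 fun t => (h.cont_bw l.1 (h1 t).ge).comp_of_eq
      (f := fun t : ℝ => -exp (I * t)) (by fun_prop) rfl
  have h4 : μH[1] (⋃ l, E l) ≠ ⊤ := ne_top_of_le_ne_top measure_circle (measure_mono (by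
    rintro _ ⟨_, ⟨l, rfl⟩, t, -, rfl⟩
    have := h.bw_zero l.1 (h1 t)
    rwa [dl, sub_eq_zero, normSq_eq_norm_sq, eq_comm, pow_eq_one_iff_of_nonneg (norm_nonneg _)
      two_ne_zero, ← mem_sphere_zero_iff_norm] at this))
  have h5 := h4
  rw [measure_iUnion (fun l l' e => disjoint_left.2 (by
    rintro _ ⟨t, ht, rfl⟩ ⟨t', ht', e'⟩
    exact e (Subtype.ext (h.bw_inj l.2 l'.2 (h1 t).ge (h2 t ht) (h1 t').ge (h2 t' ht') e'.symm))))
    fun l => (isCompact_Icc.image (h3 l)).measurableSet] at h5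
  have h6 : 0 < ‖-exp (I * ((γ - 1) / 8 : ℝ)) - -exp (I * (0 : ℝ))‖ / 4 := by
    have := Real.sin_pos_of_pos_of_le_one (half_pos h0) (by linarith [h.hi])
    rw [neg_sub_neg, norm_sub_rev, ofReal_zero, mul_zero, exp_zero, norm_exp_I_mul_ofReal_sub_one,
      Real.norm_of_nonneg (by positivity)]
    positivity
  refine (summable_mul_left_iff h6.ne').1 ((ENNReal.summable_toReal h5).of_nonneg_of_le
    (fun l => mul_nonneg h6.le (h.fw_pos _ dl_zero).le) fun l => (h.chord l.1 (h1 _) (h1 _)).trans ?_)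
  exact (ENNReal.ofReal_le_iff_le_toReal (ENNReal.ne_top_of_tsum_ne_top h5 l)).1 (dist_le_measure
    (isPreconnected_Icc.image _ (h3 l).continuousOn) ⟨0, left_mem_Icc.2 h0.le, rfl⟩
    ⟨_, right_mem_Icc.2 h0.le, rfl⟩)

theorem summable_cay : Summable fun l : W => (cay (fw γ l.1 0)).re := by
  have h0 : 0 < (γ - 1) / 4 := by linarith [h.lo]
  refine (h.summable_dl.div_const (((γ - 1) / 4) ^ 2)).of_nonneg_of_le
    (fun l => (cay_pos (h.fw_pos _ dl_zero)).le) fun l => ?_
  rw [cay_re, normSq_eq_norm_sq]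
  refine div_le_div_of_nonneg_left (h.fw_pos _ dl_zero).le (by positivity)
    (pow_le_pow_left₀ h0.le (not_lt.1 fun c => ?_) 2)
  have h1 := List.isChain_reverse.2 (l.2.imp fun _ _ => Ne.symm)
  rw [fw, List.foldl_eq_foldr_reverse] at c
  generalize l.1.reverse = m at h1 c
  obtain _ | ⟨i, m⟩ := m
  · simp at c
    linarith [h.hi]
  · exact (h.near c i).not_gt (h.pingpong h1 dl_zero.le fun j => by simpa [qa, nn, ip] using h.pos)

theorem fw_inv (l : List (Fin 3)) {z w : ℂ} (hz : 0 < dl z) (hw : 0 < dl w) :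
    P0 (fw γ l z) (fw γ l w) * dl w = P0 z w * dl (fw γ l w) := by
  induction l generalizing z w with
  | nil => rfl
  | cons i l ih =>
    have h1 := ih (h.sm_pos i hz) (h.sm_pos i hw)
    rw [h.P0_sm i hz (norm_lt hw.le), h.dl_sm i (norm_lt hw.le)] at h1
    exact mul_left_cancel₀ (h.JS_pos i (norm_lt hw.le)).ne' (by
      rw [fw_cons, fw_cons]; linear_combination h1)

theorem tm_le {ε : ℝ} (hε : 0 < ε) (l : W) {w : ℂ} (hw : ε < dl w) :
    ‖tm γ l w‖ ≤ (4 * ε⁻¹ + 1) * (cay (fw γ l.1 0)).re := by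
  have h0 := hε.trans hw
  have h1 := h.fw_pos l.1 dl_zero
  have h2 := h.fw_pos l.1 h0
  refine cay_sub h1 h2 (by positivity) ((le_inv_mul_iff₀ hε).2 ?_)
  have h3 := h.fw_inv l.1 dl_zero h0
  have h4 : P0 0 w = 2 - dl w := by
    simp [P0, l0, nn, dl, ip]
    ring
  rw [h4, P0, div_mul_eq_mul_div, div_eq_iff h1.ne', l0_eq] at h3
  nlinarith [mul_le_mul_of_nonneg_right hw.le (normSq_nonneg (fw γ l.1 0 - fw γ l.1 w)),
    mul_pos (mul_pos h0 h1) h2]

theorem summable_tm {w : ℂ} (hw : 0 < dl w) : Summable fun l => tm γ l w :=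
  .of_norm_bounded (h.summable_cay.mul_left _) fun l => h.tm_le (half_pos hw) l (half_lt_self hw)

theorem diff_fw (l : List (Fin 3)) {z : ℂ} (hz : 0 < dl z) : DifferentiableAt ℂ (fw γ l) z := by
  induction l generalizing z with
  | nil => exact differentiableAt_id
  | cons i l ih =>
    exact (ih (h.sm_pos i hz)).comp z
      ((contDiffAt_mo (h.norm_a i (norm_lt hz.le))).differentiableAt (by simp))

theorem tsum_sm (j : Fin 3) {w : ℂ} (hw : 0 < dl w) :
    ∑' l, tm γ l (sm γ j w) = ∑' l, tm γ l w := by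
  have e : ∀ (l : W) {x}, 0 < dl x → fw γ (flipW j l).1 x = fw γ l.1 (sm γ j x) := by
    rintro ⟨_ | ⟨i, l⟩, hl⟩ x hx
    · rfl
    change fw γ (if i = j then l else j :: i :: l) x = fw γ l (sm γ i (sm γ j x))
    split_ifs with c
    · rw [c, h.sm_sm j (norm_lt hx.le)]
    · rfl
  have key : ∀ x, 0 < dl x →
      ∑' l, tm γ l (sm γ j x) = ∑' l, tm γ l x + ∑' l, tm γ l (sm γ j 0) := fun x hx => by
    rw [← (flipW j).tsum_eq (fun l => tm γ l x), ← Summable.tsum_add
      (f := fun l => tm γ (flipW j l) x) ((flipW j).summable_iff.2 (h.summable_tm hx)) 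
      (h.summable_tm (h.sm_pos j dl_zero))]
    exact tsum_congr fun l => by simp only [tm, e l hx, e l dl_zero, sub_add_sub_cancel]
  have h1 := key _ (h.sm_pos j dl_zero)
  rw [h.sm_sm j (norm_lt dl_zero.le), show ∑' l, tm γ l 0 = 0 by simp [tm]] at h1
  rw [key w hw, add_self_eq_zero.1 h1.symm, add_zero]

theorem exists_fun : ∃ F : ℂ → ℂ, (∀ w, 0 < dl w → DifferentiableAt ℂ F w) ∧
    (∀ j w, 0 < dl w → F (sm γ j w) = F w) ∧ (∃ C, ∀ w, 0 < dl w → ‖F w‖ ≤ C) ∧
      ∃ w, 0 < dl w ∧ F w ≠ F 0 := by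
  obtain ⟨M, hM⟩ := h.summable_cay
  have key : ∀ w, 0 < dl w → (cay w).re ≤ (∑' l, tm γ l w).re + M := fun w hw => by
    have h1 := (hasSum_re (h.summable_tm hw).hasSum).add hM
    simp only [tm, sub_re, sub_add_cancel] at h1
    exact le_hasSum h1 ⟨[], List.isChain_nil⟩ fun l _ => (cay_pos (h.fw_pos _ hw)).le
  refine ⟨fun w => exp (-∑' l, tm γ l w), fun w hw => ?_, fun j w hw => by simp only [h.tsum_sm j hw],
    ⟨Real.exp M, fun w hw => ?_⟩, cay (|M| + 1 : ℝ), ?_⟩
  · have hU : IsOpen {x | dl w / 2 < dl x} := isOpen_lt continuous_const continuous_dl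
    refine ((differentiableOn_tsum_of_summable_norm (F := tm γ) (h.summable_cay.mul_left _)
      (fun l x hx => ?_) hU fun l x hx => h.tm_le (half_pos hw) l hx).differentiableAt
        (hU.mem_nhds (half_lt_self hw))).neg.cexp
    have h1 := h.diff_fw l.1 ((half_pos hw).trans hx)
    exact (((h1.const_sub 1).div (h1.const_add 1) (one_add_ne (h.fw_pos _
      ((half_pos hw).trans hx)))).sub_const _).differentiableWithinAt
  · rw [norm_exp, neg_re, Real.exp_le_exp]
    linarith [key w hw, cay_pos hw]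
  · have h0 : 0 < |M| + 1 := by positivity
    have h1 : (1 : ℂ) + (|M| + 1 : ℝ) ≠ 0 := by exact_mod_cast (by positivity : (0 : ℝ) < _).ne'
    have h2 : 0 < dl (cay (|M| + 1 : ℝ)) := by
      rw [dl, cay, map_div₀, sub_pos, div_lt_one (normSq_pos.2 h1)]
      simp only [normSq_apply, sub_re, sub_im, add_re, add_im, one_re, one_im, ofReal_re, ofReal_im]
      nlinarith
    have h3 : cay (cay (|M| + 1 : ℝ)) = (|M| + 1 : ℝ) := by
      rw [cay, div_eq_iff (one_add_ne h2), cay]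
      field_simp
      ring
    refine ⟨h2, fun e => ?_⟩
    have h4 := key _ h2
    have h5 := congrArg norm e
    simp only [norm_exp, neg_re, Real.exp_eq_exp, show ∑' l, tm γ l 0 = 0 by simp [tm], zero_re]
      at h5
    rw [h3, ofReal_re] at h4
    linarith [le_abs_self M]

end Ok

end Pool.Agent.MP_6b7ec3_an.Sh
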