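import Mathlib.Analysis.Complex.Basic
import Mathlib.Geometry.Manifold.IsManifold.Basic
import Mathlib.Topology.Separation.Hausdorff
import Mathlib.Topology.Maps.OpenQuotient

/-!
Gluing finitely many copies of an open subset `Y` of a complex normed space along finitely many
analytic maps gives a Hausdorff complex manifold.
-/

open Set Topology Filter
open scoped Manifold ContDiff

namespace Pool.Agent.MP_6b7ec3_an.Sh

/-- Gluing data: `x` in the sheet `i` is glued to `φ i j g x` in the sheet `j` if that is in `Y`. -/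
structure Glue (ι Γ E : Type) [NormedAddCommGroup E] [NormedSpace ℂ E] where
  Y : Set E
  φ : ι → ι → Γ → E → E
  hY : IsOpen Y
  an : ∀ i j g, ContDiffOn ℂ ω (φ i j g) Y
  refl : ∀ i, ∀ x ∈ Y, ∃ g, φ i i g x = x
  diag : ∀ i g, ∀ x ∈ Y, φ i i g x ∈ Y → φ i i g x = x
  symm : ∀ i j g, ∀ x ∈ Y, φ i j g x ∈ Y → ∃ g', φ j i g' (φ i j g x) = x
  trans : ∀ i j k g g', ∀ x ∈ Y, φ i j g x ∈ Y → φ j k g' (φ i j g x) ∈ Y →
    ∃ g'', φ i k g'' x = φ j k g' (φ i j g x)
  base : E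
  base_mem : base ∈ Y

namespace Glue

variable {ι Γ E : Type} [NormedAddCommGroup E] [NormedSpace ℂ E] (G : Glue ι Γ E)

/-- The gluing relation. -/
def setoid : Setoid (ι × G.Y) where
  r p q := ∃ g, G.φ p.1 q.1 g p.2 = q.2
  iseqv :=
    { refl := fun p => G.refl _ _ p.2.2
      symm := by
        rintro p q ⟨g, h⟩
        rw [← h]
        exact G.symm _ _ g _ p.2.2 (h ▸ q.2.2)
      trans := by
        rintro p q r ⟨g, h⟩ ⟨g', h'⟩
        rw [← h', ← h]
        exact G.trans _ _ _ g g' _ p.2.2 (h ▸ q.2.2) (by rw [h, h']; exact r.2.2) }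

/-- The glued space. -/
def X : Type := Quotient G.setoid

/-- The quotient map. -/
def proj (p : ι × G.Y) : G.X := Quotient.mk G.setoid p

theorem mk_eq_iff (p q : ι × G.Y) : G.proj p = G.proj q ↔ ∃ g, G.φ p.1 q.1 g p.2 = q.2 :=
  Quotient.eq (r := G.setoid)

open Classical in
/-- The inclusion of the sheet `i`. -/
noncomputable def j (i : ι) (x : E) : G.X :=
  if h : x ∈ G.Y then G.proj (i, ⟨x, h⟩) else G.proj (i, ⟨G.base, G.base_mem⟩)

theorem j_of_mem (i : ι) {x : E} (h : x ∈ G.Y) : G.j i x = G.proj (i, ⟨x, h⟩) := by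
  simp [j, h]

theorem j_eq_iff {i i' : ι} {x y : E} (hx : x ∈ G.Y) (hy : y ∈ G.Y) :
    G.j i x = G.j i' y ↔ ∃ g, G.φ i i' g x = y := by
  rw [G.j_of_mem i hx, G.j_of_mem i' hy, G.mk_eq_iff]

theorem j_φ (i i' : ι) (g : Γ) {x : E} (hx : x ∈ G.Y) (hy : G.φ i i' g x ∈ G.Y) :
    G.j i' (G.φ i i' g x) = G.j i x := ((G.j_eq_iff hx hy).2 ⟨g, rfl⟩).symm

theorem exists_j (q : G.X) : ∃ i, ∃ x ∈ G.Y, G.j i x = q := by
  obtain ⟨p, rfl⟩ := Quotient.mk_surjective (s := G.setoid) q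
  exact ⟨p.1, p.2.1, p.2.2, G.j_of_mem _ _⟩

theorem j_injOn (i : ι) : InjOn (G.j i) G.Y := by
  intro x hx y hy h
  obtain ⟨g, rfl⟩ := (G.j_eq_iff hx hy).1 h
  exact (G.diag i g x hx hy).symm

theorem restrict_j (i : ι) : G.Y.domRestrict (G.j i) = fun y : G.Y => G.proj (i, y) := by
  funext y
  exact G.j_of_mem i y.2

/-- Descent of a compatible family of functions. -/
def lift {β : Type} (f : ι → E → β)
    (hf : ∀ i i' g, ∀ x ∈ G.Y, G.φ i i' g x ∈ G.Y → f i' (G.φ i i' g x) = f i x) : G.X → β :=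
  Quotient.lift (s := G.setoid) (fun p => f p.1 p.2) (by
    rintro p q ⟨g, h⟩
    rw [← h, hf _ _ g _ p.2.2 (h ▸ q.2.2)])

theorem lift_j {β : Type} (f : ι → E → β)
    (hf : ∀ i i' g, ∀ x ∈ G.Y, G.φ i i' g x ∈ G.Y → f i' (G.φ i i' g x) = f i x) (i : ι) {x : E}
    (hx : x ∈ G.Y) : G.lift f hf (G.j i x) = f i x := by
  rw [G.j_of_mem i hx]
  rfl

theorem contAt (i i' : ι) (g : Γ) {x : E} (hx : x ∈ G.Y) : ContinuousAt (G.φ i i' g) x :=
  (G.an i i' g).continuousOn.continuousAt (G.hY.mem_nhds hx)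

variable [TopologicalSpace ι]

instance : TopologicalSpace G.X := inferInstanceAs (TopologicalSpace (Quotient G.setoid))

theorem continuous_mk : Continuous G.proj := continuous_quotient_mk' (s := G.setoid)

theorem isQuotientMap_mk : IsQuotientMap G.proj := isQuotientMap_quotient_mk' (s := G.setoid)

theorem j_continuousOn (i : ι) : ContinuousOn (G.j i) G.Y := by
  rw [continuousOn_iff_continuous_domRestrict, G.restrict_j]
  exact G.continuous_mk.comp (by fun_prop)

variable [DiscreteTopology ι]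

theorem isOpenMap_mk : IsOpenMap G.proj := by
  intro U hU
  rw [← G.isQuotientMap_mk.isOpen_preimage, isOpen_iff_mem_nhds]
  rintro q ⟨p, hp, hpq⟩
  obtain ⟨g, h⟩ := (G.mk_eq_iff q p).1 hpq.symm
  have hV : IsOpen (Subtype.val '' ((fun y : G.Y => (p.1, y)) ⁻¹' U)) :=
    G.hY.isOpenMap_subtype_val _ (hU.preimage (by fun_prop))
  have h1 : ContinuousAt (fun r : ι × G.Y => G.φ q.1 p.1 g r.2) q :=
    ContinuousAt.comp (f := fun r : ι × G.Y => (r.2 : E)) (G.contAt _ _ g q.2.2) (by fun_prop)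
  filter_upwards [h1.preimage_mem_nhds (hV.mem_nhds ⟨p.2, hp, h.symm⟩),
    continuous_fst.continuousAt.preimage_mem_nhds ((isOpen_discrete {q.1}).mem_nhds rfl)]
    with r ⟨y, hy, e⟩ hr
  refine ⟨_, hy, ((G.mk_eq_iff _ _).2 ⟨g, ?_⟩).symm⟩
  rw [show r.1 = q.1 from hr]
  exact e.symm

instance [Finite ι] [Finite Γ] : T2Space G.X := by
  rw [t2Space_iff_of_isOpenQuotientMap (show IsOpenQuotientMap G.proj from
    ⟨Quotient.mk_surjective, G.continuous_mk, G.isOpenMap_mk⟩)]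
  have h : {q : (ι × G.Y) × (ι × G.Y) | G.proj q.1 = G.proj q.2} = ⋃ t : ι × ι × Γ,
      {q | q.1.1 = t.1} ∩ ({q | q.2.1 = t.2.1} ∩ {q | G.φ t.1 t.2.1 t.2.2 q.1.2 = q.2.2}) := by
    ext q
    simp only [mem_ofPred_eq, G.mk_eq_iff, mem_iUnion, mem_inter_iff]
    constructor
    · rintro ⟨g, h⟩
      exact ⟨(_, _, g), rfl, rfl, h⟩
    · rintro ⟨⟨_, _, g⟩, rfl, rfl, h⟩
      exact ⟨g, h⟩
  rw [h]
  refine isClosed_iUnion_of_finite fun t => (isClosed_eq (by fun_prop) continuous_const).inter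
    ((isClosed_eq (by fun_prop) continuous_const).inter (isClosed_eq ?_ (by fun_prop)))
  exact (G.an _ _ _).continuousOn.comp_continuous (by fun_prop) fun q => q.1.2.2

instance [Finite ι] [SecondCountableTopology E] : SecondCountableTopology G.X :=
  G.isQuotientMap_mk.secondCountableTopology G.isOpenMap_mk

theorem j_isOpenMap (i : ι) : IsOpenMap (G.Y.domRestrict (G.j i)) := by
  rw [G.restrict_j]
  refine G.isOpenMap_mk.comp (f := fun y : G.Y => (i, y)) fun U hU => ?_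
  rw [← singleton_prod]
  exact (isOpen_discrete _).prod hU

/-- The chart of the sheet `i`. -/
noncomputable def chart (i : ι) : OpenPartialHomeomorph G.X E :=
  haveI : Nonempty E := ⟨G.base⟩
  (OpenPartialHomeomorph.ofContinuousOpenRestrict ((G.j_injOn i).toPartialEquiv (G.j i) G.Y)
    (G.j_continuousOn i) (G.j_isOpenMap i) G.hY).symm

theorem chart_symm (i : ι) : ⇑(G.chart i).symm = G.j i := rfl

theorem chart_target (i : ι) : (G.chart i).target = G.Y := rfl

theorem chart_source (i : ι) : (G.chart i).source = G.j i '' G.Y := rfl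

theorem chart_j (i : ι) {x : E} (hx : x ∈ G.Y) : G.chart i (G.j i x) = x :=
  (G.chart i).right_inv hx

noncomputable instance : ChartedSpace E G.X where
  atlas := range G.chart
  chartAt q := G.chart (G.exists_j q).choose
  mem_chart_source q := by
    obtain ⟨x, hx, h⟩ := (G.exists_j q).choose_spec
    exact ⟨x, hx, h⟩
  chart_mem_atlas q := mem_range_self _

instance : IsManifold 𝓘(ℂ, E) ω G.X := by
  apply isManifold_of_contDiffOn
  rintro _ _ ⟨i, rfl⟩ ⟨i', rfl⟩
  simp only [modelWithCornersSelf_coe, modelWithCornersSelf_coe_symm, preimage_id, range_id,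
    inter_univ, Function.comp_id, Function.id_comp, OpenPartialHomeomorph.trans_source,
    OpenPartialHomeomorph.symm_source, chart_target, chart_source, chart_symm,
    OpenPartialHomeomorph.coe_trans]
  rintro x ⟨hx, y, hy, h⟩
  obtain ⟨g, rfl⟩ := (G.j_eq_iff hx hy).1 h.symm
  refine (((G.an i i' g).contDiffAt (G.hY.mem_nhds hx)).congr_of_eventuallyEq ?_).contDiffWithinAt
  filter_upwards [G.hY.mem_nhds hx, (G.contAt i i' g hx).preimage_mem_nhds (G.hY.mem_nhds hy)]
    with z h1 h2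
  rw [Function.comp_apply, ← G.j_φ i i' g h1 h2, G.chart_j i' h2]

theorem exists_of_source {i : ι} {x : G.X} (hx : x ∈ (G.chart i).source) :
    ∃ p ∈ G.Y, x = G.j i p ∧ G.chart i x = p := by
  obtain ⟨p, hp, rfl⟩ := hx
  exact ⟨p, hp, rfl, G.chart_j i hp⟩

theorem exists_chart (x : G.X) : ∃ i, ∃ p ∈ G.Y, chartAt E x = G.chart i ∧ x = G.j i p ∧
    G.chart i x = p := by
  obtain ⟨p, hp, h1, h2⟩ := G.exists_of_source (mem_chart_source E x)
  exact ⟨_, p, hp, rfl, h1, h2⟩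

theorem lift_ev {β : Type} (f : ι → E → β)
    (hf : ∀ i i' g, ∀ x ∈ G.Y, G.φ i i' g x ∈ G.Y → f i' (G.φ i i' g x) = f i x) (i : ι) {x : E}
    (hx : x ∈ G.Y) : G.lift f hf ∘ (G.chart i).symm =ᶠ[𝓝 x] f i := by
  filter_upwards [G.hY.mem_nhds hx] with y hy
  exact G.lift_j f hf i hy

theorem continuousAt_lift {β : Type} [TopologicalSpace β] (f : ι → E → β)
    (hf : ∀ i i' g, ∀ x ∈ G.Y, G.φ i i' g x ∈ G.Y → f i' (G.φ i i' g x) = f i x) (i : ι) {p : E}
    (hp : p ∈ G.Y) (hc : ContinuousAt (f i) p) : ContinuousAt (G.lift f hf) (G.j i p) := by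
  rw [(G.chart i).symm.continuousAt_iff_continuousAt_comp_right ⟨p, hp, rfl⟩]
  simp only [OpenPartialHomeomorph.symm_symm, G.chart_j i hp]
  exact hc.congr (G.lift_ev f hf i hp).symm

end Glue

end Pool.Agent.MP_6b7ec3_an.Sh
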