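import Mathlib.Analysis.Convex.PathConnected
import Mathlib.Analysis.Convex.Star
import Pool.Agent.MP_6b7ec3_an.Sh.Geo
import Pool.Agent.MP_6b7ec3_an.Sh.Glue

/-! Four thickened hexagons times a disc, and their gluing. -/

open Complex Set
open scoped ComplexConjugate ContDiff

namespace Pool.Agent.MP_6b7ec3_an.Sh

variable (γ : ℝ)

/-- The thickened hexagon. -/
def Nb : Set ℂ :=
  {z | 0 < dl z ∧ (∀ j, -((γ - 1) / 8) < A γ j z) ∧ ∀ k, -((γ - 1) / 8) < B γ k z}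

/-- The closed hexagon. -/
def Hx : Set ℂ := {z | (γ - 1) / 16 ≤ dl z ∧ (∀ j, 0 ≤ qa γ j z) ∧ ∀ k, 0 ≤ qb γ k z}

/-- The domain of a chart. -/
def Y0 : Set (ℂ × ℂ) := Nb γ ×ˢ Metric.ball 0 (3 / 2)

/-- A half turn or the identity. -/
noncomputable def SS (b : Bool) (j : Fin 3) (z : ℂ) : ℂ := bif b then sm γ j z else z

/-- A mirror or the identity. -/
noncomputable def RR (b : Bool) (k : Fin 3) (z : ℂ) : ℂ := bif b then rm γ k z else z

/-- Gluing along the long sides. -/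
def rS (b : Bool) (x y : ℂ × ℂ) : Prop :=
  x ∈ Y0 γ ∧ y ∈ Y0 γ ∧ ∃ j, y = (SS γ b j x.1, SS γ b j x.2)

/-- Gluing along the short sides. -/
def rR (b : Bool) (x y : ℂ × ℂ) : Prop := x ∈ Y0 γ ∧ y ∈ Y0 γ ∧ ∃ k, y = (RR γ b k x.1, x.2)

/-- The gluing relation. -/
def rel (v : Bool × Bool) (x y : ℂ × ℂ) : Prop := ∃ m, rR γ v.2 x m ∧ rS γ v.1 m y

/-- The gluing maps. -/
noncomputable def TT (v : Bool × Bool) (g : Fin 3 × Fin 3) (x : ℂ × ℂ) : ℂ × ℂ :=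
  (SS γ v.1 g.1 (RR γ v.2 g.2 x.1), SS γ v.1 g.1 x.2)

/-- Conjugation or the identity. -/
def cj (b : Bool) (z : ℂ) : ℂ := bif b then conj z else z

/-- The change of orientation on the base. -/
def cc (b : Bool) (x : ℂ × ℂ) : ℂ × ℂ := (cj b x.1, x.2)

variable {γ}

theorem cc_cc (b : Bool) (x : ℂ × ℂ) : cc b (cc b x) = x := by cases b <;> simp [cc, cj]

theorem continuous_cc (b : Bool) : Continuous (cc b) := by
  cases b
  · exact continuous_id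
  · exact (continuous_conj.comp continuous_fst).prodMk continuous_snd

theorem Y0_norm {x : ℂ × ℂ} (hx : x ∈ Y0 γ) : ‖x.2‖ < 3 / 2 := mem_ball_zero_iff.1 hx.2

theorem mem_Y0 {x : ℂ × ℂ} (h1 : x.1 ∈ Nb γ) (h2 : 0 ≤ dl x.2) : x ∈ Y0 γ :=
  ⟨h1, mem_ball_zero_iff.2 (norm_lt h2)⟩

theorem cc_mem (b : Bool) {x : ℂ × ℂ} (hx : x ∈ Y0 γ) : cc b x ∈ Y0 γ := by
  cases b
  · exact hx
  · obtain ⟨⟨h1, h2, h3⟩, h4⟩ := hx
    refine ⟨⟨by simpa [cc, cj, dl] using h1, fun j => ?_, fun k => ?_⟩, h4⟩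
    · simpa [cc, cj, A, qa, dl, nn, ip_conj] using h2 (-j)
    · simpa [cc, cj, B, qb, dl, nn, ip_conj] using h3 (-k)

theorem mem_Nb {z : ℂ} : z ∈ Nb γ ↔ 0 < dl z ∧ (∀ j, 0 < qa γ j z + (γ - 1) / 8 * dl z) ∧
    ∀ k, 0 < qb γ k z + (γ - 1) / 8 * dl z := by
  refine and_congr_right fun hz => and_congr (forall_congr' fun j => ?_) (forall_congr' fun j => ?_)
  · rw [A, lt_div_iff₀ hz]
    constructor <;> intro <;> linarith
  · rw [B, lt_div_iff₀ hz]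
    constructor <;> intro <;> linarith

theorem continuous_qa (j : Fin 3) : Continuous (qa γ j) := by
  unfold qa nn ip
  fun_prop

theorem continuous_qb (j : Fin 3) : Continuous (qb γ j) := by
  unfold qb nn ip
  fun_prop

theorem isOpen_Nb : IsOpen (Nb γ) := by
  have e : Nb γ = {z | 0 < dl z ∧ (∀ j, 0 < qa γ j z + (γ - 1) / 8 * dl z) ∧
      ∀ k, 0 < qb γ k z + (γ - 1) / 8 * dl z} := Set.ext fun z => mem_Nb
  rw [e]
  have := continuous_dl
  have := continuous_qa (γ := γ)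
  have := continuous_qb (γ := γ)
  simp only [ofPred_and, ofPred_forall]
  exact (isOpen_lt continuous_const continuous_dl).inter
    ((isOpen_iInter_of_finite fun j => isOpen_lt continuous_const (by fun_prop)).inter
      (isOpen_iInter_of_finite fun j => isOpen_lt continuous_const (by fun_prop)))

theorem isCompact_dl {c : ℝ} (hc : 0 ≤ c) : IsCompact {z | c ≤ dl z} :=
  (isCompact_closedBall 0 1).of_isClosed_subset (isClosed_le continuous_const continuous_dl)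
    fun _ hz => mem_closedBall_zero_iff.2 ((dl_nonneg_iff _).1 (hc.trans hz))

theorem ho_cases {a b c : ℂ} (ha : 0 < dl a) (hb : 0 < dl b) (hc : normSq c = 1) (s t t' : Bool)
    {z : ℂ} (hz : 0 < dl z) : ContDiffAt ℂ ω (fun z => cj t' (bif s then
      mo a (bif t ^^ t' then c * conj (mo b (cj t z)) else cj t z) else
      (bif t ^^ t' then c * conj (mo b (cj t z)) else cj t z))) z := by
  have k1 : ∀ {a z : ℂ}, 0 < dl a → 0 < dl z → ContDiffAt ℂ ω (mo a) z := fun ha hz =>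
    contDiffAt_mo (mul_lt_one_of_nonneg_of_lt_one_left (norm_nonneg _) ((dl_pos_iff _).1 ha)
      ((dl_pos_iff _).1 hz).le)
  have k2 : ∀ {b c : ℂ}, 0 < dl b → ContDiffAt ℂ ω (fun z => c * mo b z) z := fun hb =>
    contDiffAt_const.mul (k1 hb hz)
  have k3 : ∀ {a b c : ℂ}, 0 < dl a → 0 < dl b → normSq c = 1 →
      ContDiffAt ℂ ω (fun z => mo a (c * mo b z)) z := fun ha hb hc =>
    (k1 ha (by simpa [dl, hc] using dl_mo_pos hb hz)).comp z (k2 hb)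
  have ha' : 0 < dl (conj a) := by simpa [dl] using ha
  have hb' : 0 < dl (conj b) := by simpa [dl] using hb
  have hc' : normSq (conj c) = 1 := by simpa using hc
  cases s <;> cases t <;> cases t' <;>
    simp only [cj, cond_true, cond_false, Bool.xor_false, Bool.xor_true, Bool.not_true,
      Bool.not_false, conj_mo, map_mul, conj_conj]
  exacts [contDiffAt_id, k2 hb, k2 hb', contDiffAt_id, k1 ha hz, k3 ha' hb hc', k3 ha hb' hc,
    k1 ha' hz]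

namespace Ok

variable (h : Ok γ)
include h

theorem eps : 0 < (γ - 1) / 8 := by linarith [h.lo]

theorem of_sm {j : Fin 3} {z : ℂ} (hz : 0 < dl z) (h1 : sm γ j z ∈ Nb γ) :
    A γ j z < (γ - 1) / 8 := by linarith [h1.2.1 j, h.A_sm j hz]

theorem of_rm {k : Fin 3} {z : ℂ} (hz : 0 < dl z) (h1 : rm γ k z ∈ Nb γ) :
    B γ k z < (γ - 1) / 8 := by linarith [h1.2.2 k, h.B_rm k hz]

theorem sm_mem {j : Fin 3} {z : ℂ} (hz : z ∈ Nb γ) (ha : A γ j z < (γ - 1) / 8) :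
    sm γ j z ∈ Nb γ := by
  have h1 := h.sm_pos j hz.1
  have h2 := h.A_sm j hz.1
  have h3 : A γ j (sm γ j z) < (γ - 1) / 8 := by linarith [hz.2.1 j]
  refine ⟨h1, fun i => ?_, fun k => ?_⟩
  · rcases eq_or_ne i j with rfl | e
    · linarith
    · linarith [h.A_other e h1 h3, h.eps]
  · rcases eq_or_ne j k with rfl | e
    · linarith [h.B_far h1 h3, h.eps]
    · rw [← thr_thr j k, h.B_sm (thr_ne e) hz.1]
      exact hz.2.2 _

theorem rm_mem {k : Fin 3} {z : ℂ} (hz : z ∈ Nb γ) (hb : B γ k z < (γ - 1) / 8) :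
    rm γ k z ∈ Nb γ := by
  have h1 := h.rm_pos k hz.1
  have h2 := h.B_rm k hz.1
  have h3 : B γ k (rm γ k z) < (γ - 1) / 8 := by linarith [hz.2.2 k]
  refine ⟨h1, fun i => ?_, fun i => ?_⟩
  · rcases eq_or_ne k i with rfl | e
    · linarith [h.A_far h1 h3, h.eps]
    · rw [h.A_rm e hz.1]
      exact hz.2.1 _
  · rcases eq_or_ne i k with rfl | e
    · linarith
    · linarith [h.B_other e h1 h3, h.eps]

theorem ne_of {j k : Fin 3} {z : ℂ} (hz : 0 < dl z) (ha : A γ j z < (γ - 1) / 8)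
    (hb : B γ k z < (γ - 1) / 8) : j ≠ k := by
  rintro rfl
  linarith [h.B_far hz ha, h.hi]

theorem rS_symm {b : Bool} {x y : ℂ × ℂ} : rS γ b x y → rS γ b y x := by
  rintro ⟨hx, hy, j, rfl⟩
  refine ⟨hy, hx, j, ?_⟩
  cases b
  · rfl
  · exact Prod.ext (h.sm_sm j (norm_lt hx.1.1.le)).symm (h.sm_sm j (Y0_norm hx)).symm

theorem rR_symm {b : Bool} {x y : ℂ × ℂ} : rR γ b x y → rR γ b y x := by
  rintro ⟨hx, hy, k, rfl⟩
  refine ⟨hy, hx, k, ?_⟩
  cases b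
  · rfl
  · exact Prod.ext (h.rm_rm k hx.1.1).symm rfl

theorem rS_rS {b b' : Bool} {x y z : ℂ × ℂ} (h1 : rS γ b x y) (h2 : rS γ b' y z) :
    rS γ (b ^^ b') x z := by
  obtain ⟨hy, hx, j, rfl⟩ := h.rS_symm h1
  obtain ⟨-, hz, i, rfl⟩ := h2
  cases b' <;> cases b
  · exact h1
  · exact h1
  · exact ⟨hx, hz, i, rfl⟩
  · obtain rfl : i = j := by
      by_contra e
      linarith [h.A_other e hy.1.1 (h.of_sm hy.1.1 hx.1), h.of_sm hy.1.1 hz.1, h.lo]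
    exact ⟨hx, hz, i, rfl⟩

theorem rR_rR {b b' : Bool} {x y z : ℂ × ℂ} (h1 : rR γ b x y) (h2 : rR γ b' y z) :
    rR γ (b ^^ b') x z := by
  obtain ⟨hy, hx, j, rfl⟩ := h.rR_symm h1
  obtain ⟨-, hz, i, rfl⟩ := h2
  cases b' <;> cases b
  · exact h1
  · exact h1
  · exact ⟨hx, hz, i, rfl⟩
  · obtain rfl : i = j := by
      by_contra e
      linarith [h.B_other e hy.1.1 (h.of_rm hy.1.1 hx.1), h.of_rm hy.1.1 hz.1, h.hi]
    exact ⟨hx, hz, i, rfl⟩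

theorem sw {b b' : Bool} {x m y : ℂ × ℂ} (h1 : rS γ b x m) (h2 : rR γ b' m y) :
    rel γ (b, b') x y := by
  obtain ⟨hx, hm, j, rfl⟩ := h1
  obtain ⟨-, hy, k, rfl⟩ := h2
  cases b'
  · exact ⟨x, ⟨hx, hx, 0, rfl⟩, hx, hy, j, rfl⟩
  cases b
  · exact ⟨_, ⟨hx, hy, k, rfl⟩, hy, hy, 0, rfl⟩
  have h3 := h.of_rm hm.1.1 hy.1
  have h4 : j ≠ k := h.ne_of hm.1.1 ((h.A_sm j hx.1.1).trans_lt (by linarith [hx.1.2.1 j])) h3
  have h5 := h.B_sm (thr_ne h4) hx.1.1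
  have h6 := h.sm_rm (thr_ne h4) hx.1.1
  rw [thr_thr] at h5 h6
  have h7 : (rm γ (-j - k) x.1, x.2) ∈ Y0 γ := ⟨h.rm_mem hx.1 (h5.symm.trans_lt h3), hx.2⟩
  exact ⟨_, ⟨hx, h7, _, rfl⟩, h7, hy, j, Prod.ext h6.symm rfl⟩

theorem rel_symm {v : Bool × Bool} {x y : ℂ × ℂ} : rel γ v x y → rel γ v y x :=
  fun ⟨_, h1, h2⟩ => h.sw (h.rS_symm h2) (h.rR_symm h1)

theorem rel_trans {v v' : Bool × Bool} {x y z : ℂ × ℂ} :
    rel γ v x y → rel γ v' y z → rel γ (v.1 ^^ v'.1, v.2 ^^ v'.2) x z :=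
  fun ⟨_, h1, h2⟩ ⟨_, h3, h4⟩ =>
    let ⟨_, h5, h6⟩ := h.sw h2 h3
    ⟨_, h.rR_rR h1 h5, h.rS_rS h6 h4⟩

omit h in
theorem of_rel {v : Bool × Bool} {x y : ℂ × ℂ} : rel γ v x y → ∃ g, TT γ v g x = y := by
  rintro ⟨_, ⟨-, -, k, rfl⟩, -, -, j, rfl⟩
  exact ⟨(j, k), rfl⟩

theorem rel_TT (v : Bool × Bool) (g : Fin 3 × Fin 3) {x : ℂ × ℂ} (hx : x ∈ Y0 γ)
    (hy : TT γ v g x ∈ Y0 γ) : rel γ v x (TT γ v g x) := by
  have hm : (RR γ v.2 g.2 x.1, x.2) ∈ Y0 γ := by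
    obtain ⟨_ | _, _ | _⟩ := v
    · exact hx
    · exact hy
    · exact hx
    · have h1 := h.rm_pos g.2 hx.1.1
      have h2 := h.B_rm g.2 hx.1.1
      have h3 := h.ne_of h1 (h.of_sm h1 hy.1) (h2.trans_lt (by linarith [hx.1.2.2 g.2]))
      have h4 : -((γ - 1) / 8) < B γ g.2 (rm γ g.2 x.1) := (hy.1.2.2 _).trans_eq (h.B_sm h3 h1)
      exact ⟨h.rm_mem hx.1 (by linarith), hx.2⟩
  exact ⟨_, ⟨hx, hm, g.2, rfl⟩, hm, hy, g.1, rfl⟩

theorem zero_mem : (0 : ℂ) ∈ Nb γ := by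
  have := h.eps
  have := h.pos
  refine mem_Nb.2 ⟨by simp [dl], fun j => ?_, fun j => ?_⟩ <;>
    simp only [qa, qb, dl, nn, ip, map_zero, zero_re, zero_im] <;> linarith

theorem rel_φ (i j : Bool × Bool) (g : Fin 3 × Fin 3) {x : ℂ × ℂ} (hx : x ∈ Y0 γ)
    (hy : cc j.2 (TT γ (i.1 ^^ j.1, i.2 ^^ j.2) g (cc i.2 x)) ∈ Y0 γ) :
    rel γ (i.1 ^^ j.1, i.2 ^^ j.2) (cc i.2 x) (TT γ (i.1 ^^ j.1, i.2 ^^ j.2) g (cc i.2 x)) :=
  h.rel_TT _ g (cc_mem _ hx) (cc_cc j.2 (TT γ _ g _) ▸ cc_mem j.2 hy)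

/-- The gluing data. -/
noncomputable def G : Glue (Bool × Bool) (Fin 3 × Fin 3) (ℂ × ℂ) where
  Y := Y0 γ
  φ i j g x := cc j.2 (TT γ (i.1 ^^ j.1, i.2 ^^ j.2) g (cc i.2 x))
  hY := isOpen_Nb.prod Metric.isOpen_ball
  an i j g x hx := by
    refine ContDiffAt.contDiffWithinAt (ContDiffAt.prodMk ?_ ?_)
    · exact (ho_cases (h.dl_a g.1) (h.dl_b g.2) (c := u g.2 ^ 2) (by simp [normSq_u])
        (i.1 ^^ j.1) i.2 j.2 hx.1.1).comp x contDiffAt_fst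
    · cases e : i.1 ^^ j.1
      · exact contDiffAt_snd
      · exact (contDiffAt_mo (h.norm_a g.1 (Y0_norm hx))).comp x contDiffAt_snd
  refl i x _ := ⟨0, by simp only [Bool.xor_self]; exact cc_cc _ x⟩
  diag i g x _ _ := by simp only [Bool.xor_self]; exact cc_cc _ x
  symm i j g x hx hy := by
    obtain ⟨g', e⟩ := of_rel (h.rel_symm (h.rel_φ i j g hx hy))
    exact ⟨g', by rw [cc_cc, Bool.xor_comm j.1, Bool.xor_comm j.2, e, cc_cc]⟩
  trans i j k g g' x hx hy hz := by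
    have h1 := h.rel_φ j k g' hy hz
    rw [cc_cc] at h1
    obtain ⟨g'', e⟩ := of_rel (h.rel_trans (h.rel_φ i j g hx hy) h1)
    refine ⟨g'', ?_⟩
    rw [cc_cc, ← e]
    simp
  base := 0
  base_mem := ⟨h.zero_mem, by simp⟩

theorem j_rel {v : Bool × Bool} {x y : ℂ × ℂ} (hr : rel γ v x y) (i : Bool × Bool) :
    h.G.j (i.1 ^^ v.1, i.2 ^^ v.2) (cc (i.2 ^^ v.2) y) = h.G.j i (cc i.2 x) := by
  obtain ⟨g, e⟩ := of_rel hr
  obtain ⟨_, ⟨hx, -⟩, -, hy, -⟩ := hr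
  refine ((h.G.j_eq_iff (cc_mem _ hx) (cc_mem _ hy)).2 ⟨g, ?_⟩).symm
  simp [G, cc_cc, e]

theorem compat {β : Type} {f : ℂ × ℂ → β} (hS : ∀ x y, rS γ true x y → f y = f x)
    (hR : ∀ x y, rR γ true x y → f y = f x) (i j : Bool × Bool) (g : Fin 3 × Fin 3) (x : ℂ × ℂ)
    (hx : x ∈ h.G.Y) (hy : h.G.φ i j g x ∈ h.G.Y) :
    f (cc j.2 (h.G.φ i j g x)) = f (cc i.2 x) := by
  obtain ⟨m, h1, h2⟩ := h.rel_φ i j g hx hy
  have e1 : ∀ b x y, rS γ b x y → f y = f x := by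
    rintro (_ | _) x y e
    · obtain ⟨-, -, _, rfl⟩ := e
      rfl
    · exact hS x y e
  have e2 : ∀ b x y, rR γ b x y → f y = f x := by
    rintro (_ | _) x y e
    · obtain ⟨-, -, _, rfl⟩ := e
      rfl
    · exact hR x y e
  rw [← e2 _ _ _ h1, ← e1 _ _ _ h2]
  exact congrArg f (cc_cc _ _)

theorem bound {z : ℂ} (hz : z ∈ Nb γ) : (γ - 1) / 16 ≤ dl z := by
  obtain ⟨h0, ha, hb⟩ := hz
  have h1 := one_le h0
  have h2 := h.lo
  have h3 := h.hi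
  obtain ⟨X, hX⟩ : ∃ X, X = nn z / dl z := ⟨_, rfl⟩
  obtain ⟨e, he⟩ : ∃ e, e = (γ - 1) / 8 := ⟨_, rfl⟩
  have hs : ∑ j, (A γ j z + e) * (B γ j z + e) = 3 * γ + e * (3 * γ + 3) * X + 3 * e ^ 2 := by
    have e1 := ip_sum (j := 0) (k := 1) (by decide) z
    rw [show (-0 - 1 : Fin 3) = 2 from rfl] at e1
    rw [Fin.sum_univ_three, hX]
    simp only [A, B, qa, qb]
    field_simp
    have e3 : nn z ^ 2 - 4 * normSq z = dl z ^ 2 := by
      unfold nn dl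
      ring
    linear_combination 3 * γ * e3 - 8 * γ * ip_sq z +
      ((2 * γ ^ 2 - 4) * nn z + e * dl z * (2 * γ - 4)) * e1
  obtain ⟨m, m1, m2⟩ : ∃ m, (γ - 1) * X ≤ A γ m z ∧ 7 / 16 * X ≤ B γ m z := by
    have a := fun i j (hij : i ≠ j) => AA (γ := γ) hij h0
    have b := fun i j (hij : i ≠ j) => h.BB hij h0
    rw [← hX] at a b
    by_contra hc
    simp only [not_exists, not_and_or, not_le] at hc
    rcases hc 0 with c0 | c0 <;> rcases hc 1 with c1 | c1 <;> rcases hc 2 with c2 | c2 <;>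
      linarith [a 0 1 (by decide), a 0 2 (by decide), a 1 2 (by decide), b 0 1 (by decide),
        b 0 2 (by decide), b 1 2 (by decide)]
  have h4 := Finset.single_le_sum (f := fun j => (A γ j z + e) * (B γ j z + e))
    (fun j _ => mul_nonneg (by linarith [ha j]) (by linarith [hb j])) (Finset.mem_univ m)
  rw [← hX] at h1
  have h5 : (γ - 1) * X * (7 / 16 * X) ≤ (A γ m z + e) * (B γ m z + e) :=
    mul_le_mul (by linarith) (by linarith) (by positivity) (by nlinarith)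
  have h6 : (γ - 1) * X * (7 / 16 * X) ≤ 7 * X := by
    have : e * (3 * γ + 3) ≤ 1 := by nlinarith
    nlinarith
  have h7 : (γ - 1) * X ≤ 16 := by nlinarith
  rw [hX, ← mul_div_assoc, div_le_iff₀ h0] at h7
  nlinarith [one_le_nn z]

theorem Hx_sub {z : ℂ} (hz : z ∈ Hx γ) : z ∈ Nb γ := by
  have h1 : 0 < dl z := by linarith [hz.1, h.lo]
  have h2 := mul_pos h.eps h1
  exact mem_Nb.2 ⟨h1, fun j => by linarith [hz.2.1 j], fun j => by linarith [hz.2.2 j]⟩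

theorem isCompact_Hx : IsCompact (Hx γ) := by
  refine (isCompact_dl (c := (γ - 1) / 16) (by linarith [h.lo])).of_isClosed_subset ?_
    fun z hz => hz.1
  simp only [Hx, ofPred_and, ofPred_forall]
  exact (isClosed_le continuous_const continuous_dl).inter
    ((isClosed_iInter fun j => isClosed_le continuous_const (continuous_qa j)).inter
      (isClosed_iInter fun j => isClosed_le continuous_const (continuous_qb j)))

theorem fold {x : ℂ × ℂ} (hx : x.1 ∈ Nb γ) (hw : 0 ≤ dl x.2) :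
    ∃ v y, rel γ v x y ∧ y.1 ∈ Hx γ ∧ 0 ≤ dl y.2 := by
  have e := h.eps
  obtain ⟨b, m, h1, h2, h3⟩ : ∃ b m, rS γ b x m ∧ 0 ≤ dl m.2 ∧ ∀ j, 0 ≤ A γ j m.1 := by
    by_cases c : ∀ j, 0 ≤ A γ j x.1
    · exact ⟨false, x, ⟨mem_Y0 hx hw, mem_Y0 hx hw, 0, rfl⟩, hw, c⟩
    obtain ⟨j, hj⟩ := not_forall.1 c
    have h1 : 0 ≤ dl (sm γ j x.2) :=
      h.dl_sm j (norm_lt hw) ▸ mul_nonneg (h.JS_pos j (norm_lt hw)).le hw
    have h2 := h.A_sm j hx.1
    refine ⟨true, (sm γ j x.1, sm γ j x.2), ⟨mem_Y0 hx hw, mem_Y0 (h.sm_mem hx (by linarith)) h1,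
      j, rfl⟩, h1, fun i => ?_⟩
    rcases eq_or_ne i j with rfl | c
    · linarith
    · linarith [h.A_other c (h.sm_pos j hx.1) (by linarith [hx.2.1 j])]
  have hm := h1.2.1
  obtain ⟨b', y, h4, h5, h6, h7⟩ : ∃ b' y, rR γ b' m y ∧ y.2 = m.2 ∧ (∀ j, 0 ≤ A γ j y.1) ∧
      ∀ j, 0 ≤ B γ j y.1 := by
    by_cases c : ∀ j, 0 ≤ B γ j m.1
    · exact ⟨false, m, ⟨hm, hm, 0, rfl⟩, rfl, h3, c⟩
    obtain ⟨k, hk⟩ := not_forall.1 c
    have h8 := h.B_rm k hm.1.1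
    have h9 : B γ k (rm γ k m.1) < (γ - 1) / 8 := by linarith [hm.1.2.2 k]
    refine ⟨true, (rm γ k m.1, m.2), ⟨hm, ⟨h.rm_mem hm.1 (by linarith), hm.2⟩, k, rfl⟩, rfl,
      fun i => ?_, fun i => ?_⟩
    · rcases eq_or_ne k i with rfl | c
      · linarith [h.A_far (h.rm_pos k hm.1.1) h9]
      · exact h.A_rm c hm.1.1 ▸ h3 i
    · rcases eq_or_ne i k with rfl | c
      · linarith
      · linarith [h.B_other c (h.rm_pos k hm.1.1) h9]
  have hy := h4.2.1.1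
  exact ⟨_, y, h.sw h1 h4, ⟨h.bound hy, fun j => by simpa using (le_div_iff₀ hy.1).1 (h6 j),
    fun j => by simpa using (le_div_iff₀ hy.1).1 (h7 j)⟩, h5 ▸ h2⟩

theorem isConnected_Nb : IsConnected (Nb γ) := by
  refine (StarConvex.isPathConnected ?_ h.zero_mem).isConnected
  rw [starConvex_zero_iff]
  intro z hz t t0 t1
  obtain ⟨h0, ha, hb⟩ := mem_Nb.1 hz
  have key : ∀ p q y : ℝ, 0 ≤ q → q < p → 0 < p + q * normSq z + y →
      0 < p + q * (t ^ 2 * normSq z) + t * y := fun p q y q0 qp hp => by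
    have h1 : t * normSq z ≤ 1 := by
      unfold dl at h0
      nlinarith [normSq_nonneg z]
    have h2 : 0 < p - q * (t * normSq z) := by nlinarith
    rcases t0.eq_or_lt with rfl | t0
    · simpa using q0.trans_lt qp
    · nlinarith [mul_pos t0 hp, mul_nonneg (sub_nonneg.2 t1) h2.le]
  have e1 : normSq (t • z) = t ^ 2 * normSq z := by simp [sq]
  have e2 : ∀ v, ip (t • z) v = t * ip z v := fun v => by
    simp [ip]
    ring
  have h1 := h.lo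
  have h2 := h.hi
  refine mem_Nb.2 ⟨?_, fun j => ?_, fun j => ?_⟩
  · unfold dl at h0 ⊢
    nlinarith [normSq_nonneg z, mul_nonneg t0 (sub_nonneg.2 t1)]
  · have := ha j
    simp only [qa, nn, dl, e1, e2] at this ⊢
    linarith [key (γ + (γ - 1) / 8) (γ - (γ - 1) / 8) (-4 * ip z (u j)) (by linarith) (by linarith)
      (by linarith)]
  · have := hb j
    simp only [qb, nn, dl, e1, e2] at this ⊢
    linarith [key (1 + (γ - 1) / 8) (1 - (γ - 1) / 8) (2 * γ * ip z (u j)) (by linarith)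
      (by linarith) (by linarith)]

end Ok

end Pool.Agent.MP_6b7ec3_an.Sh
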