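import Mathlib.Analysis.Complex.Basic
import Mathlib.Analysis.Calculus.ContDiff.Operations
import Mathlib.Analysis.SpecialFunctions.Sqrt

/-! Moebius involutions of the unit disc in the coordinates of the hyperboloid. -/

open Complex
open scoped ComplexConjugate ContDiff

namespace Pool.Agent.MP_6b7ec3_an.Sh

/-- Defining function of the unit disc. -/
noncomputable def dl (w : ℂ) : ℝ := 1 - normSq w

/-- The time coordinate. -/
noncomputable def nn (w : ℂ) : ℝ := 1 + normSq w

/-- The real inner product. -/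
def ip (z w : ℂ) : ℝ := z.re * w.re + z.im * w.im

/-- The involution that exchanges `0` and `a`. -/
noncomputable def mo (a z : ℂ) : ℂ := (a - z) / (1 - conj a * z)

/-- The squared modulus of the denominator. -/
noncomputable def DD (a z : ℂ) : ℝ := normSq (1 - conj a * z)

/-- The Lorentz product. -/
noncomputable def l0 (z w : ℂ) : ℝ := nn z * nn w - 4 * ip z w

theorem ip_comm (z w : ℂ) : ip z w = ip w z := by
  unfold ip
  ring

theorem ip_self (z : ℂ) : ip z z = normSq z := by rw [ip, normSq_apply]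

theorem ip_sq_le (z w : ℂ) : ip z w ^ 2 ≤ normSq z * normSq w := by
  simp only [ip, normSq_apply]
  nlinarith [sq_nonneg (z.re * w.im - z.im * w.re)]

theorem one_le_nn (w : ℂ) : 1 ≤ nn w := le_add_of_nonneg_right (normSq_nonneg w)

theorem dl_le_one (w : ℂ) : dl w ≤ 1 := sub_le_self _ (normSq_nonneg w)

theorem dl_pos_iff (w : ℂ) : 0 < dl w ↔ ‖w‖ < 1 := by
  rw [dl, Complex.normSq_eq_norm_sq, sub_pos, sq_lt_one_iff₀ (norm_nonneg _)]

theorem dl_nonneg_iff (w : ℂ) : 0 ≤ dl w ↔ ‖w‖ ≤ 1 := by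
  rw [dl, Complex.normSq_eq_norm_sq, sub_nonneg, sq_le_one_iff₀ (norm_nonneg _)]

theorem continuous_dl : Continuous dl := by
  unfold dl
  fun_prop

theorem cone {T : ℝ} {V : ℂ} (h0 : 0 ≤ T) (h : normSq V ≤ T ^ 2) (w : ℂ) :
    2 * ip w V ≤ T * nn w := by
  have h1 := ip_sq_le w V
  have h2 := normSq_nonneg w
  have h3 := one_le_nn w
  refine (abs_le_of_sq_le_sq' ?_ (by positivity)).2
  have h4 : 4 * normSq w ≤ nn w ^ 2 := by
    unfold nn
    nlinarith [sq_nonneg (1 - normSq w)]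
  nlinarith [mul_le_mul h h4 (by positivity) (sq_nonneg T)]

theorem l0_eq (z w : ℂ) : l0 z w = 2 * normSq (z - w) + dl z * dl w := by
  simp only [l0, nn, dl, ip, normSq_apply, sub_re, sub_im]
  ring

theorem l0_pos {z : ℂ} (hz : 0 < dl z) (w : ℂ) : 0 < l0 z w := by
  have h : l0 z w = normSq (z - w) + normSq (1 - conj w * z) := by
    simp only [l0, nn, ip, normSq_apply, sub_re, sub_im, mul_re, mul_im, conj_re, conj_im, one_re,
      one_im]
    ring
  rw [h]
  by_cases e : z = w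
  · subst e
    have : 1 - conj z * z = (dl z : ℂ) := by simp [dl, normSq_eq_conj_mul_self]
    rw [this, normSq_ofReal, sub_self, map_zero]
    positivity
  · exact add_pos_of_pos_of_nonneg (normSq_pos.2 (sub_ne_zero.2 e)) (normSq_nonneg _)

theorem DD_pos {a z : ℂ} (h : ‖a‖ * ‖z‖ < 1) : 0 < DD a z := by
  refine normSq_pos.2 fun e => h.ne ?_
  have := congrArg norm (sub_eq_zero.1 e)
  simpa using this.symm

theorem den_ne {a z : ℂ} (h : 0 < DD a z) : 1 - conj a * z ≠ 0 := normSq_pos.1 h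

theorem mo_den {a z : ℂ} (h : 0 < DD a z) : mo a z * (1 - conj a * z) = a - z :=
  div_mul_cancel₀ _ (den_ne h)

theorem mo_mul {a z : ℂ} (h : 0 < DD a z) :
    mo a z * DD a z = a * nn z - z - a ^ 2 * conj z := by
  have h1 := mo_den h
  simp only [DD, nn, normSq_eq_conj_mul_self, ofReal_add, ofReal_one, map_sub, map_mul, map_one,
    conj_conj]
  linear_combination (1 - a * conj z) * h1

theorem normSq_mo {a z : ℂ} (h : 0 < DD a z) : normSq (mo a z) * DD a z = normSq (a - z) := by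
  rw [mo, map_div₀]
  exact div_mul_cancel₀ _ h.ne'

theorem dl_mo {a z : ℂ} (h : 0 < DD a z) : dl (mo a z) * DD a z = dl a * dl z := by
  rw [dl, sub_mul, normSq_mo h]
  simp only [DD, dl, normSq_apply, sub_re, sub_im, mul_re, mul_im, conj_re, conj_im, one_re, one_im]
  ring

theorem nn_mo {a z : ℂ} (h : 0 < DD a z) : nn (mo a z) * DD a z = l0 a z := by
  rw [nn, add_mul, normSq_mo h]
  simp only [DD, l0, nn, ip, normSq_apply, sub_re, sub_im, mul_re, mul_im, conj_re, conj_im, one_re,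
    one_im]
  ring

theorem normSq_mo_sub {a z w : ℂ} (hz : 0 < DD a z) (hw : 0 < DD a w) :
    normSq (mo a z - mo a w) * (DD a z * DD a w) = dl a ^ 2 * normSq (z - w) := by
  have h1 := den_ne hz
  have h2 := den_ne hw
  have h : mo a z - mo a w = -(dl a : ℂ) * (z - w) / ((1 - conj a * z) * (1 - conj a * w)) := by
    rw [eq_div_iff (mul_ne_zero h1 h2)]
    simp only [dl, normSq_eq_conj_mul_self, ofReal_sub, ofReal_one]
    linear_combination (1 - conj a * w) * mo_den hz - (1 - conj a * z) * mo_den hw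
  rw [h, map_div₀, map_mul, map_mul, normSq_neg, normSq_ofReal, ← sq]
  exact div_mul_cancel₀ _ (mul_pos hz hw).ne'

theorem l0_mo {a z w : ℂ} (hz : 0 < DD a z) (hw : 0 < DD a w) :
    l0 (mo a z) (mo a w) * (DD a z * DD a w) = dl a ^ 2 * l0 z w := by
  rw [l0_eq, l0_eq]
  linear_combination 2 * normSq_mo_sub hz hw + dl (mo a w) * DD a w * dl_mo hz +
    dl a * dl z * dl_mo hw

theorem mo_mo {a z : ℂ} (ha : 0 < dl a) (h : 0 < DD a z) : mo a (mo a z) = z := by
  have h1 := den_ne h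
  have h2 : 1 - conj a * a ≠ 0 := by
    rw [← normSq_eq_conj_mul_self]
    exact_mod_cast ha.ne'
  have h3 := mo_den h
  have h4 : (1 - conj a * mo a z) * (1 - conj a * z) = 1 - conj a * a := by
    linear_combination (-conj a) * h3
  rw [mo, div_eq_iff (left_ne_zero_of_mul (h4 ▸ h2))]
  linear_combination -h3

theorem conj_mo (a z : ℂ) : conj (mo a z) = mo (conj a) (conj z) := by simp [mo]

theorem contDiffAt_mo {a z : ℂ} (h : ‖a‖ * ‖z‖ < 1) : ContDiffAt ℂ ω (mo a) z :=
  (contDiffAt_const.sub contDiffAt_id).div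
    (contDiffAt_const.sub (contDiffAt_const.mul contDiffAt_id)) (den_ne (DD_pos h))

theorem DD_pos' {a z : ℂ} (ha : 0 < dl a) (hz : 0 ≤ dl z) : 0 < DD a z :=
  DD_pos (mul_lt_one_of_nonneg_of_lt_one_left (norm_nonneg _) ((dl_pos_iff _).1 ha)
    ((dl_nonneg_iff _).1 hz))

theorem dl_mo_pos {a z : ℂ} (ha : 0 < dl a) (hz : 0 < dl z) : 0 < dl (mo a z) :=
  (mul_pos_iff_of_pos_right (DD_pos' ha hz.le)).1 (dl_mo (DD_pos' ha hz.le) ▸ mul_pos ha hz)

theorem rf_eq {u : ℂ} (hu : normSq u = 1) (z : ℂ) : u ^ 2 * conj z = (2 * ip z u : ℝ) * u - z := by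
  rw [normSq_apply] at hu
  apply Complex.ext <;> simp [ip, sq]
  · linear_combination (-z.re) * hu
  · linear_combination (-z.im) * hu

theorem ip_rf {u : ℂ} (hu : normSq u = 1) (z v : ℂ) :
    ip (u ^ 2 * conj z) v = 2 * ip z u * ip u v - ip z v := by
  rw [rf_eq hu]
  simp [ip]
  ring

theorem ip_mo {u z : ℂ} {c : ℝ} (hu : normSq u = 1) (h : 0 < DD (c * u) z) (v : ℂ) :
    ip (mo (c * u) z) v * DD (c * u) z =
      (c * nn z - 2 * c ^ 2 * ip z u) * ip u v - (1 - c ^ 2) * ip z v := by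
  have h1 := mo_mul h
  rw [mul_pow, mul_assoc ((c : ℂ) ^ 2), rf_eq hu] at h1
  have h2 := congrArg re h1
  have h3 := congrArg im h1
  simp only [sq, sub_re, sub_im, mul_re, mul_im, ofReal_re, ofReal_im] at h2 h3
  simp only [ip] at h2 h3 ⊢
  linear_combination v.re * h2 + v.im * h3

theorem l0_real {u : ℂ} (hu : normSq u = 1) (c : ℝ) (z : ℂ) :
    l0 (c * u) z = (1 + c ^ 2) * nn z - 4 * c * ip z u := by
  simp only [l0, nn, map_mul, hu, normSq_ofReal]
  simp [ip]
  ring

theorem dl_real {u : ℂ} (hu : normSq u = 1) (c : ℝ) : dl (c * u) = 1 - c ^ 2 := by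
  rw [dl, map_mul, hu, normSq_ofReal]
  ring

theorem rat {x x' d d' D k : ℝ} (hD : 0 < D) (hk : 0 < k) (h1 : x' * D = k * x)
    (h2 : d' * D = k * d) : x' / d' = x / d := by
  rw [← mul_div_mul_right _ _ hD.ne', h1, h2, mul_div_mul_left _ _ hk.ne']

/-- A point of the disc is determined by its Lorentz products. -/
theorem ext_l0 {z z' : ℂ} (hz : 0 < dl z) (hz' : 0 < dl z')
    (h : ∀ w, 0 < dl w → l0 z w / dl z = l0 z' w / dl z') : z = z' := by
  have h0 := h 0 (by simp [dl])
  have h1 := h ((1 / 2 : ℝ) : ℂ) (by rw [dl, normSq_ofReal]; norm_num)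
  have h2 := h (((1 / 2 : ℝ) : ℂ) * I) (by rw [dl, map_mul, normSq_ofReal, normSq_I]; norm_num)
  have e : dl z = dl z' := by
    rw [div_eq_div_iff hz.ne' hz'.ne'] at h0
    simp only [l0, nn, dl, ip, map_zero, zero_re, zero_im] at h0 ⊢
    linarith
  have e' : nn z = nn z' := by
    unfold dl at e
    unfold nn
    linarith
  rw [e, div_left_inj' hz'.ne', l0, l0, e'] at h1 h2
  simp [ip] at h1 h2
  exact Complex.ext h1 h2

/-- The cube roots of unity. -/
noncomputable def u : Fin 3 → ℂ := ![1, ⟨-1 / 2, √3 / 2⟩, ⟨-1 / 2, -(√3 / 2)⟩]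

theorem s3 : √3 * √3 = 3 := Real.mul_self_sqrt (by norm_num)

theorem normSq_u (j : Fin 3) : normSq (u j) = 1 := by
  fin_cases j <;> simp [u, normSq_apply] <;> linear_combination (1 / 4) * s3

theorem norm_u (j : Fin 3) : ‖u j‖ = 1 := by
  rw [← sq_eq_sq₀ (norm_nonneg _) zero_le_one, ← Complex.normSq_eq_norm_sq, normSq_u, one_pow]

theorem ip_u {i j : Fin 3} (h : i ≠ j) : ip (u i) (u j) = -1 / 2 := by
  fin_cases i <;> fin_cases j <;> simp [u, ip] at h ⊢ <;> linear_combination (-1 / 4) * s3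

theorem ip_sum {j k : Fin 3} (h : j ≠ k) (z : ℂ) :
    ip z (u j) + ip z (u k) + ip z (u (-j - k)) = 0 := by
  have e : ip z (u 0) + ip z (u 1) + ip z (u 2) = 0 := by
    simp [u, ip]
    ring
  have := (Fin.sum_univ_three fun i => ip z (u i)).trans e
  rwa [show (Finset.univ : Finset (Fin 3)) = {j, k, -j - k} by revert j k; decide,
    Finset.sum_insert (by clear this; revert j k; decide),
    Finset.sum_pair (by clear this; revert j k; decide),
    ← add_assoc] at this

theorem ip_sq (z : ℂ) :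
    ip z (u 0) ^ 2 + ip z (u 1) ^ 2 + ip z (u 2) ^ 2 = 3 / 2 * normSq z := by
  simp [u, ip, normSq_apply]
  linear_combination (z.im ^ 2 / 2) * s3

theorem ip_conj (j : Fin 3) (z : ℂ) : ip (conj z) (u j) = ip z (u (-j)) := by
  fin_cases j <;> simp [u, ip]

theorem ip_le (j : Fin 3) (z : ℂ) : 2 * ip z (u j) ≤ nn z ∧ -nn z ≤ 2 * ip z (u j) := by
  have h1 := cone zero_le_one (V := u j) (by simp [normSq_u]) z
  have h2 := cone zero_le_one (V := -u j) (by simp [normSq_u]) z
  simp only [ip, neg_re, neg_im] at h1 h2 ⊢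
  constructor <;> linarith

end Pool.Agent.MP_6b7ec3_an.Sh
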