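import Pool.Agent.MP_6b7ec3_an.Space
import Pool.Agent.MP_6b7ec3_an.Sh.Mob

/-! First derivatives and Laplacian of functions of one complex variable. -/

open Set Topology Filter Complex
open scoped ContDiff ComplexConjugate

namespace Pool.Agent.MP_6b7ec3_an.Sh

/-- `f` is `C²` at `z`, with gradient `(a, b)` and Laplacian `c`. -/
structure Jet (f : ℂ → ℝ) (z : ℂ) (a b c : ℝ) : Prop where
  cd : ContDiffAt ℝ 2 f z
  dx : fderiv ℝ f z 1 = a
  dy : fderiv ℝ f z I = b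
  lap : Lap f z 1 = c

namespace Jet

variable {f f' : ℂ → ℝ} {z : ℂ} {a b c a' b' c' : ℝ}

theorem df (h : Jet f z a b c) : DifferentiableAt ℝ f z := h.cd.differentiableAt (by norm_num)

theorem grd (h : Jet f z a b c) : Grd f z 1 = a ^ 2 + b ^ 2 := by simp [Grd, h.dx, h.dy]

theorem of_cd (h : ContDiffAt ℝ 2 f z) : ∃ a b c, Jet f z a b c := ⟨_, _, _, h, rfl, rfl, rfl⟩

theorem congr (h : Jet f z a b c) (e : f' =ᶠ[𝓝 z] f) : Jet f' z a b c :=
  ⟨h.cd.congr_of_eventuallyEq e, by rw [e.fderiv_eq, h.dx], by rw [e.fderiv_eq, h.dy],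
    by rw [Lap_congr e, h.lap]⟩

theorem lap_eq (h : Jet f z a b c) (e : c = c') : Jet f z a b c' := e ▸ h

theorem uniq (h : Jet f z a b c) (h' : Jet f z a' b' c') : a = a' ∧ b = b' ∧ c = c' :=
  ⟨h.dx.symm.trans h'.dx, h.dy.symm.trans h'.dy, h.lap.symm.trans h'.lap⟩

theorem const (t : ℝ) (z : ℂ) : Jet (fun _ => t) z 0 0 0 :=
  ⟨contDiffAt_const, by simp, by simp, Lap_const _ _ _⟩

theorem add (h : Jet f z a b c) (h' : Jet f' z a' b' c') :
    Jet (fun x => f x + f' x) z (a + a') (b + b') (c + c') :=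
  ⟨h.cd.add h'.cd, by simp [fderiv_fun_add h.df h'.df, h.dx, h'.dx],
    by simp [fderiv_fun_add h.df h'.df, h.dy, h'.dy], by rw [Lap_add h.cd h'.cd, h.lap, h'.lap]⟩

theorem mul (h : Jet f z a b c) (h' : Jet f' z a' b' c') : Jet (fun x => f x * f' x) z
    (f z * a' + f' z * a) (f z * b' + f' z * b) (f z * c' + f' z * c + 2 * (a * a' + b * b')) :=
  ⟨h.cd.mul h'.cd, by simp [fderiv_fun_mul h.df h'.df, h.dx, h'.dx],
    by simp [fderiv_fun_mul h.df h'.df, h.dy, h'.dy],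
    by simp [Lap_mul h.cd h'.cd, h.lap, h'.lap, Crs, h.dx, h.dy, h'.dx, h'.dy]⟩

theorem cmul (t : ℝ) (h : Jet f z a b c) : Jet (fun x => t * f x) z (t * a) (t * b) (t * c) := by
  simpa using (const t z).mul h

theorem sub (h : Jet f z a b c) (h' : Jet f' z a' b' c') :
    Jet (fun x => f x - f' x) z (a - a') (b - b') (c - c') := by
  simpa [sub_eq_add_neg] using h.add (h'.cmul (-1))

theorem comp {g : ℝ → ℝ} (hg : ContDiffAt ℝ 2 g (f z)) (h : Jet f z a b c) :
    Jet (fun x => g (f x)) z (deriv g (f z) * a) (deriv g (f z) * b)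
      (deriv g (f z) * c + deriv (deriv g) (f z) * (a ^ 2 + b ^ 2)) :=
  ⟨hg.comp z h.cd, by rw [fderiv_comp_real (hg.differentiableAt (by norm_num)) h.df, h.dx],
    by rw [fderiv_comp_real (hg.differentiableAt (by norm_num)) h.df, h.dy],
    by rw [Lap_comp hg h.cd, h.lap, h.grd]⟩

theorem log (h : Jet f z a b c) (h0 : f z ≠ 0) : Jet (fun x => Real.log (f x)) z (a / f z) (b / f z)
    ((f z * c - (a ^ 2 + b ^ 2)) / f z ^ 2) := by
  have := h.comp (Real.contDiffAt_log.2 h0)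
  refine ⟨this.cd, this.dx.trans ?_, this.dy.trans ?_, by rw [Lap_log h.cd h0, h.lap, h.grd]⟩ <;>
    rw [Real.deriv_log, inv_mul_eq_div]

theorem exp (h : Jet f z a b c) : Jet (fun x => Real.exp (f x)) z (Real.exp (f z) * a)
    (Real.exp (f z) * b) (Real.exp (f z) * (c + (a ^ 2 + b ^ 2))) := by
  simpa [mul_add] using h.comp (g := Real.exp) Real.contDiff_exp.contDiffAt

theorem conj' (h : Jet f (conj z) a b c) : Jet (fun x => f (conj x)) z a (-b) c := by
  have h1 : HasFDerivAt (fun x => f (conj x)) _ z :=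
    h.df.hasFDerivAt.comp z conjCLE.hasFDerivAt
  have h2 := fun v => D2_clm (u := f) (conjCLE : ℂ →L[ℝ] ℂ) 0 (p := z) (by simpa using h.cd) v
  refine ⟨h.cd.comp z conjCLE.contDiff.contDiffAt, by simpa [h1.fderiv] using h.dx,
    by simpa [h1.fderiv] using h.dy, ?_⟩
  simp only [add_zero, ContinuousLinearEquiv.coe_coe, conjCLE_apply] at h2
  rw [Lap, h2, h2]
  simpa [Lap, D2] using h.lap

theorem normSq' (z : ℂ) : Jet normSq z (2 * z.re) (2 * z.im) 4 :=
  ⟨contDiffAt_normSq contDiffAt_id, by simpa using fderiv_normSq (differentiableAt_id (x := z)) 1,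
    by simpa using fderiv_normSq (differentiableAt_id (x := z)) I,
    by simpa using Lap_normSq (contDiffAt_id (x := z)) 1⟩

theorem clm (T : ℂ →L[ℝ] ℝ) (z : ℂ) : Jet T z (T 1) (T I) 0 :=
  ⟨T.contDiff.contDiffAt, by simp, by simp, by simp [Lap, D2, funext fun x => T.fderiv (x := x)]⟩

theorem ip' (v z : ℂ) : Jet (fun x => ip x v) z v.re v.im 0 := by
  simpa [ip, mul_comm] using ((clm reCLM z).cmul v.re).add ((clm imCLM z).cmul v.im)

/-- A linear function on the hyperboloid. -/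
theorem lin (t : ℝ) (v : ℂ) (hz : 0 < dl z) (hf : ∀ x, f x = (t * nn x - 2 * ip x v) / dl x) :
    ∃ a b, Jet f z a b (2 * (4 / dl z ^ 2) * f z) ∧
      a ^ 2 + b ^ 2 = 4 / dl z ^ 2 * (f z ^ 2 - (t ^ 2 - normSq v)) := by
  have h1 := (((const 1 z).add (normSq' z)).cmul t).sub ((ip' v z).cmul 2)
  have h2 := (const 1 z).sub (normSq' z)
  obtain ⟨a, b, c, h⟩ := of_cd (f := f) ((h1.cd.div h2.cd hz.ne').congr_of_eventuallyEq (.of_forall hf))
  have h3 : ∀ x, 0 < dl x → f x * dl x = t * nn x - 2 * ip x v := fun x hx => by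
    rw [hf, div_mul_cancel₀ _ hx.ne']
  obtain ⟨e1, e2, e3⟩ := (h.mul h2).uniq (h1.congr (by
    filter_upwards [continuous_dl.continuousAt.preimage_mem_nhds (Ioi_mem_nhds hz)] with x hx
      using h3 x hx))
  have e4 := h3 z hz
  have hz' := hz.ne'
  refine ⟨a, b, h.lap_eq ?_, ?_⟩ <;> field_simp <;>
    simp only [dl, nn, ip, normSq_apply] at e1 e2 e3 e4 ⊢
  · linear_combination (1 - (z.re * z.re + z.im * z.im)) * e3 + 4 * z.re * e1 + 4 * z.im * e2 -
      4 * e4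
  · linear_combination ((1 - (z.re * z.re + z.im * z.im)) * a + 2 * (t + f z) * z.re - 2 * v.re) *
      e1 + ((1 - (z.re * z.re + z.im * z.im)) * b + 2 * (t + f z) * z.im - 2 * v.im) * e2 -
      4 * (t + f z) * e4

end Jet

theorem Grd_fst {f : ℂ × ℂ → ℝ} {p : ℂ × ℂ} (hf : DifferentiableAt ℝ f p) :
    Grd f p (1, 0) = Grd (fun z => f (z, p.2)) p.1 1 := by
  have h : HasFDerivAt (fun z => f (z, p.2)) _ p.1 :=
    hf.hasFDerivAt.comp p.1 (hasFDerivAt_prodMk_left p.1 p.2)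
  simp [Grd, h.fderiv]

end Pool.Agent.MP_6b7ec3_an.Sh
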