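import Mathlib.Analysis.SpecialFunctions.Pow.Real
import Pool.Agent.MP_6b7ec3_an.Space
import Pool.Agent.MP_6b7ec3_an.Sh.Mob

/-! The defining function `-(1 - |w|²) / exp θ` and the powers of it that are plurisubharmonic. -/

set_option maxSynthPendingDepth 3

open Set Topology Filter Complex
open scoped ContDiff

namespace Pool.Agent.MP_6b7ec3_an.Sh

/-- The defining function with weight `exp θ`. -/
noncomputable def rho (θ : ℂ × ℂ → ℝ) (p : ℂ × ℂ) : ℝ := dl p.2 * -Real.exp (-θ p)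

variable {θ : ℂ × ℂ → ℝ} {p : ℂ × ℂ}

theorem cd_dl (p : ℂ × ℂ) {m : WithTop ℕ∞} : ContDiffAt ℝ m (fun q : ℂ × ℂ => dl q.2) p :=
  contDiffAt_const.sub (contDiffAt_normSq contDiffAt_snd)

theorem Lap_dl (p v : ℂ × ℂ) : Lap (fun q : ℂ × ℂ => dl q.2) p v = -(4 * normSq v.2) := by
  unfold dl
  rw [Lap_sub contDiffAt_const (contDiffAt_N2 p), Lap_const,
    Lap_normSq (h := fun q : ℂ × ℂ => q.2) contDiffAt_snd, fderiv_snd']
  ring

theorem Grd_dl (p v : ℂ × ℂ) :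
    Grd (fun q : ℂ × ℂ => dl q.2) p v = 4 * (1 - dl p.2) * normSq v.2 := by
  have := Grd_normSq (h := fun q : ℂ × ℂ => q.2) (p := p) differentiableAt_snd v
  rw [fderiv_snd'] at this
  rw [dl, sub_sub_cancel, ← this]
  unfold dl Grd
  rw [fderiv_const_sub]
  simp

theorem rho_neg_iff : rho θ p < 0 ↔ 0 < dl p.2 := by
  rw [rho, mul_neg, neg_lt_zero, mul_pos_iff_of_pos_right (Real.exp_pos _)]

theorem rho_eq_zero_iff : rho θ p = 0 ↔ dl p.2 = 0 := by simp [rho]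

theorem cd_rho {m : WithTop ℕ∞} (hθ : ContDiffAt ℝ m θ p) : ContDiffAt ℝ m (rho θ) p :=
  (cd_dl p).mul hθ.neg.exp.neg

theorem fderiv_rho (hθ : ContDiffAt ℝ 2 θ p) (h0 : dl p.2 = 0) (v : ℂ × ℂ) :
    fderiv ℝ (rho θ) p v = 0 ↔ fderiv ℝ (fun q : ℂ × ℂ => dl q.2) p v = 0 := by
  unfold rho
  rw [fderiv_fun_mul ((cd_dl p (m := 2)).differentiableAt (by norm_num))
    (hθ.neg.exp.neg.differentiableAt (by norm_num))]
  simp [h0]

theorem fderiv_rho_ne (hθ : ContDiffAt ℝ 2 θ p) (h0 : dl p.2 = 0) : fderiv ℝ (rho θ) p ≠ 0 := by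
  intro h
  have h1 := fun v => (fderiv_rho hθ h0 v).1 (by rw [h]; rfl)
  simpa [Grd, h1, h0] using Grd_dl p (0, 1)

theorem rho_flat (hθ : ContDiffAt ℝ 2 θ p) (h0 : dl p.2 = 0) {v : ℂ × ℂ}
    (h1 : fderiv ℝ (rho θ) p v = 0) (h2 : fderiv ℝ (rho θ) p (I • v) = 0) :
    Lap (rho θ) p v = 0 := by
  rw [fderiv_rho hθ h0] at h1 h2
  have h5 := Grd_dl p v
  rw [Grd, h1, h2, h0] at h5
  unfold rho
  rw [Lap_mul (cd_dl p) hθ.neg.exp.neg, Lap_dl, h0, show normSq v.2 = 0 by linarith, Crs, h1, h2]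
  ring

theorem Grd_sub_le' {E : Type} [NormedAddCommGroup E] [NormedSpace ℝ E] [NormedSpace ℂ E]
    {f g : E → ℝ} {p : E} (hf : DifferentiableAt ℝ f p) (hg : DifferentiableAt ℝ g p) (v : E)
    {η : ℝ} (h1 : η < 1) :
    η * Grd (fun x => f x - g x) p v ≤ η / (1 - η) * Grd f p v + Grd g p v := by
  have key : ∀ x y : ℝ, η * (x - y) ^ 2 ≤ η / (1 - η) * x ^ 2 + y ^ 2 := fun x y => by
    have h2 : 0 < 1 - η := by linarith
    have : η / (1 - η) * x ^ 2 + y ^ 2 - η * (x - y) ^ 2 = (η * x + (1 - η) * y) ^ 2 / (1 - η) := by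
      field_simp
      ring
    linarith [div_nonneg (sq_nonneg (η * x + (1 - η) * y)) h2.le]
  unfold Grd
  rw [fderiv_fun_sub hf hg]
  simp only [sub_apply]
  linarith [key (fderiv ℝ f p v) (fderiv ℝ g p v), key (fderiv ℝ f p (I • v)) (fderiv ℝ g p (I • v))]

theorem exists_lower {K : Set ℂ} (hK : IsCompact K) {s : ℝ}
    (hθ : ∀ p : ℂ × ℂ, p.1 ∈ K → ContDiffAt ℝ 2 θ p)
    (hp : ∀ p : ℂ × ℂ, p.1 ∈ K → dl p.2 = 0 → 0 < Lap θ p (1, 0) - s * Grd θ p (1, 0)) :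
    ∃ κ C ε : ℝ, 0 < κ ∧ 0 < ε ∧ ∀ p : ℂ × ℂ, p.1 ∈ K → 0 < dl p.2 → -ε < rho θ p →
      dl p.2 * C ≤ 1 ∧ ∀ a b : ℂ,
        κ * ‖a‖ ^ 2 - C * ‖b‖ ^ 2 ≤ Lap θ p (a, b) - s * Grd θ p (a, b) := by
  set K0 : Set (ℂ × ℂ) := K ×ˢ Metric.closedBall 0 1
  have hK0 : IsCompact K0 := hK.prod (isCompact_closedBall _ _)
  set Q : ℂ × ℂ → (ℂ × ℂ) →L[ℝ] (ℂ × ℂ) →L[ℝ] ℝ := fun p =>
    fderiv ℝ (fderiv ℝ θ) p - s • (fderiv ℝ θ p).smulRight (fderiv ℝ θ p) with hQ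
  have e : ∀ p v, Lap θ p v - s * Grd θ p v = Q p v v + Q p (I • v) (I • v) := fun p v => by
    simp only [hQ, Lap, D2, Grd, sub_apply, smul_apply, ContinuousLinearMap.smulRight_apply,
      smul_eq_mul]
    ring
  have c1 : ContinuousOn (fderiv ℝ θ) K0 := fun p hp =>
    (diff_fderiv (hθ p hp.1)).continuousAt.continuousWithinAt
  have c2 : ContinuousOn Q K0 := ContinuousOn.sub (fun p hp =>
    (((hθ p hp.1).fderiv_right (m := 1) (by norm_num)).fderiv_right (m := 0)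
      (by norm_num)).continuousAt.continuousWithinAt)
    ((isBoundedBilinearMap_smulRight.continuous.comp_continuousOn (c1.prodMk c1)).const_smul s)
  obtain ⟨M, h1⟩ := hK0.exists_bound_of_continuousOn c2
  obtain ⟨M', h2⟩ := hK0.exists_bound_of_continuousOn (f := θ) fun p hp =>
    (hθ p hp.1).continuousAt.continuousWithinAt
  obtain ⟨κ, hκ, h3⟩ := hK0.exists_forall_le' (a := 0) (f := fun p =>
      max (Q p (1, 0) (1, 0) + Q p (I • (1, 0)) (I • (1, 0))) (dl p.2))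
    (ContinuousOn.sup (((c2.clm_apply continuousOn_const).clm_apply continuousOn_const).add
      ((c2.clm_apply continuousOn_const).clm_apply continuousOn_const))
      (continuous_dl.comp continuous_snd).continuousOn) fun p hq => by
        rcases ((dl_nonneg_iff _).2 (mem_closedBall_zero_iff.1 hq.2)).eq_or_lt with h | h
        · exact lt_max_of_lt_left (e p _ ▸ hp p hq.1 h.symm)
        · exact lt_max_of_lt_right h
  set C := 2 * |M| + 8 * M ^ 2 / κ + 1 with hC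
  have hC0 : 0 < C := by positivity
  refine ⟨κ / 2, C, min κ C⁻¹ * Real.exp (-M'), by positivity, by positivity,
    fun p h4 h5 h6 => ?_⟩
  have hq : p ∈ K0 := ⟨h4, mem_closedBall_zero_iff.2 ((dl_nonneg_iff _).1 h5.le)⟩
  have h7 : dl p.2 < min κ C⁻¹ := by
    rw [rho, mul_neg, neg_lt_neg_iff] at h6
    refine lt_of_mul_lt_mul_right (h6.trans_le ?_) (Real.exp_pos (-θ p)).le
    gcongr
    exact (le_abs_self _).trans (h2 p hq)
  rw [lt_min_iff, ← one_div, lt_div_iff₀ hC0] at h7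
  refine ⟨h7.2.le, fun a b => ?_⟩
  have h8 := bilin_lower _ ((h1 p hq).trans (le_abs_self M))
    ((le_max_iff.1 (h3 p hq)).resolve_right h7.1.not_ge) a b
  have h9 : κ / 2 * ‖a‖ ^ 2 + 8 * M ^ 2 / κ * ‖b‖ ^ 2 - 4 * |M| * (‖a‖ * ‖b‖) =
      κ / 2 * (‖a‖ - 4 * |M| / κ * ‖b‖) ^ 2 := by
    rw [← sq_abs M]
    field_simp
    ring
  have : 0 ≤ κ / 2 * (‖a‖ - 4 * |M| / κ * ‖b‖) ^ 2 := by positivity
  rw [e, hC]
  linarith [sq_nonneg ‖b‖]

theorem exists_psh' {K : Set ℂ} (hK : IsCompact K) {η : ℝ} (h0 : 0 < η) (h1 : η < 1)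
    (hθ : ∀ p : ℂ × ℂ, p.1 ∈ K → ContDiffAt ℝ 2 θ p)
    (hp : ∀ p : ℂ × ℂ, p.1 ∈ K → dl p.2 = 0 →
      0 < Lap θ p (1, 0) - η / (1 - η) * Grd θ p (1, 0)) :
    ∃ ε : ℝ, 0 < ε ∧ ∀ p : ℂ × ℂ, p.1 ∈ K → rho θ p < 0 → -ε < rho θ p →
      ContDiffAt ℝ 2 (fun q => -(-rho θ q) ^ η) p ∧
        ∀ v : ℂ × ℂ, v ≠ 0 → 0 < Lap (fun q => -(-rho θ q) ^ η) p v := by
  obtain ⟨κ, C, ε, hκ, hε, hb⟩ := exists_lower hK hθ hp
  refine ⟨ε, hε, fun p hz h2 h3 => ?_⟩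
  have hδ := rho_neg_iff.1 h2
  obtain ⟨b1, b2⟩ := hb p hz hδ h3
  have hθ := hθ p hz
  have hl : ContDiffAt ℝ 2 (fun q : ℂ × ℂ => Real.log (dl q.2)) p := (cd_dl p).log hδ.ne'
  have hu : ContDiffAt ℝ 2 (fun q : ℂ × ℂ => θ q - Real.log (dl q.2)) p := hθ.sub hl
  have hu' : ContDiffAt ℝ 2 (fun q : ℂ × ℂ => (-η) * (θ q - Real.log (dl q.2))) p :=
    contDiffAt_const.mul hu
  have hev : (fun q => -(-rho θ q) ^ η) =ᶠ[𝓝 p]
      fun q => (-1) * Real.exp ((-η) * (θ q - Real.log (dl q.2))) := by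
    filter_upwards [(cd_dl p (m := 0)).continuousAt.preimage_mem_nhds (Ioi_mem_nhds hδ)] with q q2
    have q4 : 0 < dl q.2 := q2
    rw [rho, mul_neg, neg_neg, Real.rpow_def_of_pos (by positivity),
      Real.log_mul q4.ne' (Real.exp_pos _).ne', Real.log_exp]
    ring_nf
  refine ⟨(contDiffAt_const.mul hu'.exp).congr_of_eventuallyEq hev, fun v hv => ?_⟩
  obtain ⟨a, b⟩ := v
  have hG : Grd (fun q : ℂ × ℂ => (-η) * (θ q - Real.log (dl q.2))) p (a, b) =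
      η ^ 2 * Grd (fun q : ℂ × ℂ => θ q - Real.log (dl q.2)) p (a, b) := by
    unfold Grd
    rw [fderiv_const_mul (hu.differentiableAt (by norm_num))]
    simp only [smul_apply, smul_eq_mul]
    ring
  rw [Lap_congr hev, Lap_const_mul _ hu'.exp, Lap_exp hu', Lap_const_mul _ hu, hG]
  have key : 0 < Lap (fun q : ℂ × ℂ => θ q - Real.log (dl q.2)) p (a, b) -
      η * Grd (fun q : ℂ × ℂ => θ q - Real.log (dl q.2)) p (a, b) := by
    have h4 := Grd_sub_le' (hθ.differentiableAt (by norm_num)) (hl.differentiableAt (by norm_num))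
      (a, b) h1
    rw [Grd_comp (g := Real.log) (u := fun q : ℂ × ℂ => dl q.2) (Real.differentiableAt_log hδ.ne')
      ((cd_dl p (m := 2)).differentiableAt (by norm_num)), Grd_dl, Real.deriv_log,
      Complex.normSq_eq_norm_sq b] at h4
    rw [Lap_sub hθ hl, Lap_log (cd_dl p) hδ.ne', Lap_dl, Grd_dl, Complex.normSq_eq_norm_sq b]
    have e : (dl p.2 * -(4 * ‖b‖ ^ 2) - 4 * (1 - dl p.2) * ‖b‖ ^ 2) / dl p.2 ^ 2 =
        -((dl p.2)⁻¹ ^ 2 * (4 * (1 - dl p.2) * ‖b‖ ^ 2)) - 4 * ((dl p.2)⁻¹ * ‖b‖ ^ 2) := by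
      field_simp
      ring
    have h5 : C * ‖b‖ ^ 2 ≤ (dl p.2)⁻¹ * ‖b‖ ^ 2 :=
      mul_le_mul_of_nonneg_right (by rwa [← one_div, le_div_iff₀' hδ]) (sq_nonneg _)
    have h6 : 0 < κ * ‖a‖ ^ 2 + (dl p.2)⁻¹ * ‖b‖ ^ 2 := by
      by_cases ha : a = 0
      · have : b ≠ 0 := fun hb => hv (Prod.ext ha hb)
        positivity
      · positivity
    have h7 : 0 ≤ (dl p.2)⁻¹ * ‖b‖ ^ 2 := by positivity
    rw [e]
    linarith [b2 a b]
  linarith [mul_pos (Real.exp_pos ((-η) * (θ p - Real.log (dl p.2)))) (mul_pos h0 key)]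

end Pool.Agent.MP_6b7ec3_an.Sh
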