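import Pool.Agent.MP_6b7ec3_an.Sh.Jet
import Pool.Agent.MP_6b7ec3_an.Sh.Geo

/-! The weight: an invariant strict supersolution of `Δθ = s |∇θ|²` along the boundary leaves. -/

open Set Topology Filter Complex
open scoped ContDiff ComplexConjugate

namespace Pool.Agent.MP_6b7ec3_an.Sh

theorem S_zero {t : ℝ} (ht : t ≤ -1) : S t = 0 :=
  Real.smoothTransition.zero_of_nonpos (by linarith)

theorem S_one {t : ℝ} (ht : 1 ≤ t) : S t = 1 :=
  Real.smoothTransition.one_of_one_le (by linarith)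

theorem exists_S_bound : ∃ M, (∀ t, |deriv S t| ≤ M) ∧ ∀ t, |deriv (deriv S) t| ≤ M := by
  have h1 : HasCompactSupport (deriv S) := by
    refine HasCompactSupport.intro (isCompact_Icc (a := -1) (b := 1)) fun t ht => ?_
    rcases not_and_or.1 ht with h | h
    · refine (EventuallyEq.deriv_eq (f := fun _ => 0) ?_).trans (deriv_const _ _)
      filter_upwards [Iio_mem_nhds (not_le.1 h)] with x hx using S_zero (le_of_lt hx)
    · refine (EventuallyEq.deriv_eq (f := fun _ => 1) ?_).trans (deriv_const _ _)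
      filter_upwards [Ioi_mem_nhds (not_le.1 h)] with x hx using S_one (le_of_lt hx)
  have h2 := (contDiff_infty_iff_deriv.1 contDiff_S).2
  obtain ⟨M, h3⟩ := h2.continuous.bounded_above_of_compact_support h1
  obtain ⟨M', h4⟩ :=
    (contDiff_infty_iff_deriv.1 h2).2.continuous.bounded_above_of_compact_support h1.deriv
  exact ⟨max M M', fun t => le_max_of_le_left (h3 t), fun t => le_max_of_le_right (h4 t)⟩

theorem cs {a b a' b' P Q g : ℝ} (h : a ^ 2 + b ^ 2 ≤ P ^ 2 * g) (h' : a' ^ 2 + b' ^ 2 ≤ Q ^ 2 * g)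
    (h0 : 0 ≤ P * Q * g) : |a * a' + b * b'| ≤ P * Q * g := by
  refine abs_le_of_sq_le_sq ?_ h0
  have := mul_le_mul h h' (by positivity) ((by positivity : 0 ≤ a ^ 2 + b ^ 2).trans h)
  nlinarith [sq_nonneg (a * b' - b * a')]

/-- The range of the parameters. -/
structure Par (γ Λ s : ℝ) : Prop extends Ok γ where
  one : 1 ≤ Λ
  big : 4 * (γ ^ 2 - 1) * Real.exp Λ ≤ 1
  s0 : 0 < s
  s1 : s < 1
  bd : ∃ M, (∀ t, |deriv S t| ≤ M) ∧ (∀ t, |deriv (deriv S) t| ≤ M) ∧ 1104 * (M / Λ) < s * (1 - s)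

theorem exists_par {s : ℝ} (h0 : 0 < s) (h1 : s < 1) : ∃ γ Λ, Par γ Λ s := by
  obtain ⟨M, hM, hM'⟩ := exists_S_bound
  have h2 : 0 < s * (1 - s) := mul_pos h0 (sub_pos.2 h1)
  have h3 : 0 ≤ M := (abs_nonneg _).trans (hM 0)
  obtain ⟨Λ, h4, h5⟩ : ∃ Λ, 1 ≤ Λ ∧ 1104 * (M / Λ) < s * (1 - s) := by
    have : 0 ≤ 1104 * M / (s * (1 - s)) := by positivity
    refine ⟨1104 * M / (s * (1 - s)) + 1, by linarith, ?_⟩
    rw [← mul_div_assoc, div_lt_comm₀ (by linarith) h2]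
    linarith
  have h6 := Real.exp_pos (-Λ)
  have h7 : Real.exp (-Λ) ≤ 1 := Real.exp_le_one_iff.2 (by linarith)
  have h8 : Real.exp (-Λ) * Real.exp Λ = 1 := by simp [← Real.exp_add]
  exact ⟨1 + Real.exp (-Λ) / 12, Λ, ⟨by linarith, by linarith⟩, h4, by nlinarith, h0, h1, M, hM, hM',
    h5⟩

/-- A bounded concave function which is the identity below `2`. -/
noncomputable def kap (x : ℝ) : ℝ := 3 - Ψ (3 - x)

theorem contDiff_kap : ContDiff ℝ ∞ kap := contDiff_const.sub (contDiff_Ψ.comp (by fun_prop))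

theorem kap_eq {x : ℝ} (hx : x ≤ 2) : kap x = x := by
  linarith [Ψ_sub (3 - x), Ψ_zero (t := -(3 - x)) (by linarith), show kap x = 3 - Ψ (3 - x) from rfl]

theorem kap_le (x : ℝ) : kap x ≤ 3 := sub_le_self _ (Ψ_nonneg _)

theorem kap_nonneg {x : ℝ} (hx : 0 ≤ x) : 0 ≤ kap x := by
  rcases le_total x 2 with h | h
  · rwa [kap_eq h]
  · linarith [Ψ_mono (show 3 - x ≤ 1 by linarith), Ψ_one, show kap x = 3 - Ψ (3 - x) from rfl]

theorem deriv_kap : deriv kap = fun x => S (3 - x) := funext fun x =>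
  (((hasDerivAt_Ψ (3 - x)).comp x ((hasDerivAt_id x).const_sub 3)).const_sub 3).deriv.trans (by simp)

theorem deriv2_kap (x : ℝ) : deriv (deriv kap) x ≤ 0 := by
  rw [deriv_kap, deriv_comp_const_sub, neg_nonpos]
  exact deriv_S_nonneg _

variable (γ Λ s : ℝ)

/-- The cut-off near a mirror. -/
noncomputable def chi (k : Fin 3) (z : ℂ) : ℝ :=
  S (3 - 4 / Λ * Real.log (1 + (γ ^ 2 - 1)⁻¹ * (B γ k z * B γ k z)))

/-- The contribution of a mirror. -/
noncomputable def KK (k : Fin 3) (z w : ℂ) : ℝ :=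
  kap (Real.exp (s * (Real.log (P0 z w) - Real.log (P1 γ k z w))))

/-- The correction. -/
noncomputable def VV (z w : ℂ) : ℝ := 1 + ∑ k, chi γ Λ k z * KK γ s k z w

/-- The logarithm of the weight. -/
noncomputable def th (p : ℂ × ℂ) : ℝ :=
  Real.log (P0 p.1 p.2) - s⁻¹ * Real.log (VV γ Λ s p.1 p.2)

variable {γ Λ s}

theorem KK_nonneg (k : Fin 3) (z w : ℂ) : 0 ≤ KK γ s k z w := kap_nonneg (Real.exp_pos _).le

theorem one_le_VV (z w : ℂ) : 1 ≤ VV γ Λ s z w :=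
  le_add_of_nonneg_right (Finset.sum_nonneg fun k _ => mul_nonneg (S_nonneg _) (KK_nonneg k z w))

theorem Jet.null {f : ℂ → ℝ} {z : ℂ} (t : ℝ) (v : ℂ) (hz : 0 < dl z)
    (hf : ∀ x, f x = (t * nn x - 2 * ip x v) / dl x) (h0 : 0 < f z) (hn : t ^ 2 = normSq v) :
    ∃ a b, Jet (fun x => Real.log (f x)) z a b (4 / dl z ^ 2) ∧ a ^ 2 + b ^ 2 = 4 / dl z ^ 2 := by
  obtain ⟨a, b, h1, h2⟩ := Jet.lin t v hz hf
  rw [hn, sub_self, sub_zero] at h2
  refine ⟨_, _, (h1.log h0.ne').lap_eq ?_, ?_⟩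
  · rw [h2]
    field_simp
    ring
  · rw [div_pow, div_pow, ← add_div, h2, mul_div_cancel_right₀ _ (by positivity)]

theorem jet_P0 {z w : ℂ} (hz : 0 < dl z) (hw : dl w = 0) : ∃ a b,
    Jet (fun x => Real.log (P0 x w)) z a b (4 / dl z ^ 2) ∧ a ^ 2 + b ^ 2 = 4 / dl z ^ 2 := by
  refine Jet.null (nn w) (2 * w) hz (fun x => ?_) (P0_pos hz w) ?_
  · simp [P0, l0, ip]
    ring
  · simp only [dl, nn, map_mul, normSq_ofNat] at hw ⊢
    linear_combination (1 - normSq w) * hw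

namespace Par

variable (h : Par γ Λ s)
include h

theorem cd_th {p : ℂ × ℂ} (hz : 0 < dl p.1) : ContDiffAt ℝ ∞ (th γ Λ s) p := by
  have c1 : ContDiff ℝ ∞ re := reCLM.contDiff
  have c2 : ContDiff ℝ ∞ im := imCLM.contDiff
  have c3 := contDiff_S
  have c4 := contDiff_kap
  have c5 : ContDiff ℝ ∞ dl := by
    unfold dl
    simp only [normSq_apply]
    fun_prop
  have c6 : ∀ k, ContDiff ℝ ∞ (qb γ k) := fun k => by
    unfold qb nn ip
    simp only [normSq_apply]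
    fun_prop
  have c7 : ContDiffAt ℝ ∞ (fun q : ℂ × ℂ => P0 q.1 q.2) p := by
    unfold P0 l0 nn ip
    simp only [normSq_apply]
    fun_prop (disch := exact hz.ne')
  have c8 : ∀ k, ContDiffAt ℝ ∞ (fun q : ℂ × ℂ => B γ k q.1) p := fun k =>
    ((c6 k).contDiffAt.comp p contDiffAt_fst).div (c5.contDiffAt.comp p contDiffAt_fst) hz.ne'
  have c9 : ∀ k, ContDiffAt ℝ ∞ (fun q : ℂ × ℂ => P1 γ k q.1 q.2) p := fun k => by
    simp only [Ok.P1_eq]
    exact c7.add ((contDiffAt_const.mul (c8 k)).mul ((c6 k).contDiffAt.comp p contDiffAt_snd))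
  have := h.r2
  exact (c7.log (P0_pos hz _).ne').sub (contDiffAt_const.mul ((contDiffAt_const.add
    (ContDiffAt.sum fun k _ => (c3.contDiffAt.comp p (contDiffAt_const.sub (contDiffAt_const.mul
      ((contDiffAt_const.add (contDiffAt_const.mul ((c8 k).mul (c8 k)))).log (by
        positivity [mul_self_nonneg (B γ k p.1)]))))).mul (c4.contDiffAt.comp p
          (contDiffAt_const.mul ((c7.log (P0_pos hz _).ne').sub
            ((c9 k).log (h.P1_pos k hz _).ne'))).exp))).log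
              (one_pos.trans_le (one_le_VV _ _)).ne'))

theorem jet_P1 (k : Fin 3) {z w : ℂ} (hz : 0 < dl z) (hw : dl w = 0) : ∃ a b,
    Jet (fun x => Real.log (P1 γ k x w)) z a b (4 / dl z ^ 2) ∧ a ^ 2 + b ^ 2 = 4 / dl z ^ 2 := by
  obtain ⟨t, ht⟩ : ∃ t, t = 2 / (γ ^ 2 - 1) * qb γ k w := ⟨_, rfl⟩
  refine Jet.null (nn w + t) (2 * w - (t * γ : ℝ) * u k) hz (fun x => ?_) (h.P1_pos k hz w) ?_
  · rw [P1, l1, mul_right_comm, ← ht]
    simp [l0, qb, ip]
    ring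
  · rw [div_mul_eq_mul_div, eq_div_iff h.r2.ne'] at ht
    have e := normSq_u k
    simp only [qb, nn, dl, ip, normSq_apply, sub_re, sub_im, mul_re, mul_im, ofReal_re, ofReal_im,
      re_ofNat, im_ofNat] at e ht hw ⊢
    linear_combination (1 - (w.re * w.re + w.im * w.im)) * hw - t ^ 2 * γ ^ 2 * e - t * ht

theorem jet_KK (k : Fin 3) {z w : ℂ} (hz : 0 < dl z) (hw : dl w = 0) {a b : ℝ}
    (h0 : Jet (fun x => Real.log (P0 x w)) z a b (4 / dl z ^ 2))
    (h1 : a ^ 2 + b ^ 2 = 4 / dl z ^ 2) : ∃ a' b' c', Jet (fun x => KK γ s k x w) z a' b' c' ∧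
      c' - 2 * s * (a * a' + b * b') ≤ 0 ∧ a' ^ 2 + b' ^ 2 ≤ 8 ^ 2 * (4 / dl z ^ 2) := by
  obtain ⟨a', b', h2, h3⟩ := h.jet_P1 k hz hw
  refine ⟨_, _, _, ((h0.sub h2).cmul s).exp.comp (contDiff_kap.contDiffAt.of_le two_le_infty),
    ?_, ?_⟩
  all_goals
    set T := Real.exp (s * (Real.log (P0 z w) - Real.log (P1 γ k z w)))
    have hT : 0 < T := Real.exp_pos _
  · have := mul_nonpos_of_nonpos_of_nonneg (deriv2_kap T)
      (by positivity : 0 ≤ (T * (s * (a - a'))) ^ 2 + (T * (s * (b - b'))) ^ 2)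
    linear_combination this + deriv kap T * T * s ^ 2 * (h3 - h1)
  · have h4 : (deriv kap T * T * s) ^ 2 ≤ 4 ^ 2 := by
      have := h.s0
      have := S_nonneg (3 - T)
      rw [deriv_kap]
      refine pow_le_pow_left₀ (by positivity) ((mul_le_of_le_one_right (by positivity)
        h.s1.le).trans ?_) 2
      rcases le_total T 4 with h5 | h5
      · exact (mul_le_of_le_one_left hT.le (S_le_one _)).trans h5
      · simp [S_zero (show 3 - T ≤ -1 by linarith)]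
    have h5 : (a - a') ^ 2 + (b - b') ^ 2 ≤ 4 * (4 / dl z ^ 2) := by
      nlinarith [sq_nonneg (a + a'), sq_nonneg (b + b')]
    linear_combination mul_le_mul h4 h5 (by positivity) (by positivity)

theorem jet_chi (k : Fin 3) {z : ℂ} (hz : 0 < dl z) {M : ℝ} (h1 : ∀ t, |deriv S t| ≤ M)
    (h2 : ∀ t, |deriv (deriv S) t| ≤ M) : ∃ a b c, Jet (chi γ Λ k) z a b c ∧
      c ≤ 64 * (M / Λ) * (4 / dl z ^ 2) ∧ a ^ 2 + b ^ 2 ≤ (8 * (M / Λ)) ^ 2 * (4 / dl z ^ 2) := by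
  obtain ⟨a, b, h3, h4⟩ := Jet.lin (f := B γ k) 1 (-(γ * u k)) hz fun x => by
    simp [B, qb, ip]
    ring
  have hr := h.r2
  have hN : 0 < 1 + (γ ^ 2 - 1)⁻¹ * (B γ k z * B γ k z) := by
    positivity [mul_self_nonneg (B γ k z)]
  have h5 := ((Jet.const 1 z).add ((h3.mul h3).cmul (γ ^ 2 - 1)⁻¹)).log hN.ne'
  simp only [normSq_neg, map_mul, normSq_u, normSq_ofReal] at h4
  set g := 4 / dl z ^ 2
  have hg : 0 < g := by positivity
  obtain ⟨a', b', h6, h7⟩ : ∃ a' b', Jet (fun x => Real.log (1 + (γ ^ 2 - 1)⁻¹ *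
      (B γ k x * B γ k x))) z a' b' (2 * g) ∧ a' ^ 2 + b' ^ 2 ≤ 4 * g := by
    have e : (γ ^ 2 - 1)⁻¹ * (a ^ 2 + b ^ 2) = g * (1 + (γ ^ 2 - 1)⁻¹ * (B γ k z * B γ k z)) := by
      rw [h4]
      field_simp
      ring
    generalize (γ ^ 2 - 1)⁻¹ = R at *
    refine ⟨_, _, h5.lap_eq ?_, ?_⟩
    · rw [div_eq_iff (by positivity)]
      linear_combination (2 - 2 * R * B γ k z ^ 2) * e
    · rw [div_pow, div_pow, ← add_div, div_le_iff₀ (by positivity)]
      linear_combination 4 * R * B γ k z ^ 2 * e + 4 * (mul_pos hg hN).le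
  refine ⟨_, _, _, ((Jet.const 3 z).sub (h6.cmul (4 / Λ))).comp
    (contDiff_S.contDiffAt.of_le two_le_infty), ?_, ?_⟩
  all_goals
    set T := 3 - 4 / Λ * Real.log (1 + (γ ^ 2 - 1)⁻¹ * (B γ k z * B γ k z))
    have hΛ := h.one
    have hM := (abs_nonneg _).trans (h1 0)
  · have h8 : (4 / Λ) ^ 2 ≤ 16 / Λ := by
      rw [div_pow, div_le_div_iff₀ (by positivity) (by positivity)]
      nlinarith
    have h9 := mul_le_mul_of_nonneg_right ((le_abs_self _).trans (h2 T))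
      (by positivity : 0 ≤ (4 / Λ) ^ 2 * (a' ^ 2 + b' ^ 2))
    have := mul_le_mul_of_nonneg_left (mul_le_mul h8 h7 (by positivity) (by positivity)) hM
    linear_combination h9 + this + mul_nonneg (deriv_S_nonneg T) (by positivity : 0 ≤ 4 / Λ * (2 * g))
  · have h8 : deriv S T ^ 2 ≤ M ^ 2 := sq_le_sq.2 ((h1 T).trans (le_abs_self M))
    linear_combination (4 / Λ) ^ 2 * mul_le_mul h8 h7 (by positivity) (by positivity)

theorem jet_th {z w : ℂ} (hz : 0 < dl z) (hw : dl w = 0) :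
    ∃ a b c, Jet (fun x => th γ Λ s (x, w)) z a b c ∧ 0 < c - s * (a ^ 2 + b ^ 2) := by
  obtain ⟨M, h1, h2, h3⟩ := h.bd
  obtain ⟨a, b, h4, h5⟩ := jet_P0 hz hw
  have hs := h.s0
  have hΛ := h.one
  have hM := (abs_nonneg _).trans (h1 0)
  have key : ∀ k, ∃ a' b' c', Jet (fun x => chi γ Λ k x * KK γ s k x w) z a' b' c' ∧
      c' - 2 * s * (a * a' + b * b') ≤ 368 * (M / Λ) * (4 / dl z ^ 2) := fun k => by
    obtain ⟨a1, b1, c1, e1, e2, e3⟩ := h.jet_chi k hz h1 h2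
    obtain ⟨a2, b2, c2, e4, e5, e6⟩ := h.jet_KK k hz hw h4 h5
    refine ⟨_, _, _, e1.mul e4, ?_⟩
    have e7 := (abs_le.1 (cs e3 e6 (by positivity))).2
    have e8 := (abs_le.1 (cs (P := 1) (h5.trans (by ring)).le e3 (by positivity))).1
    have e9 : c1 - 2 * s * (a * a1 + b * b1) ≤ 80 * (M / Λ) * (4 / dl z ^ 2) := by
      have : 0 ≤ M / Λ * (4 / dl z ^ 2) := by positivity
      nlinarith [h.s1]
    linear_combination mul_nonpos_of_nonneg_of_nonpos (show 0 ≤ chi γ Λ k z from S_nonneg _) e5 +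
      2 * e7 + mul_le_mul_of_nonneg_left e9 (KK_nonneg k z w) + mul_le_mul_of_nonneg_right
        (show KK γ s k z w ≤ 3 from kap_le _) (by positivity : 0 ≤ 80 * (M / Λ) * (4 / dl z ^ 2))
  choose A B C h6 h7 using key
  have hV := one_le_VV (γ := γ) (Λ := Λ) (s := s) z w
  have h8 : Jet (fun x => VV γ Λ s x w) z (A 0 + A 1 + A 2) (B 0 + B 1 + B 2) (C 0 + C 1 + C 2) := by
    simpa [VV, Fin.sum_univ_three] using (Jet.const 1 z).add (((h6 0).add (h6 1)).add (h6 2))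
  refine ⟨_, _, _, h4.sub ((h8.log (by positivity)).cmul s⁻¹), ?_⟩
  have h9 : C 0 + C 1 + C 2 - 2 * s * (a * (A 0 + A 1 + A 2) + b * (B 0 + B 1 + B 2)) <
      s * (1 - s) * (4 / dl z ^ 2) * VV γ Λ s z w := by
    have e1 := mul_lt_mul_of_pos_right h3 (by positivity : 0 < 4 / dl z ^ 2)
    have e2 := le_mul_of_one_le_right (mul_pos (mul_pos hs (sub_pos.2 h.s1))
      (by positivity : 0 < 4 / dl z ^ 2)).le hV
    linarith [h7 0, h7 1, h7 2]
  generalize A 0 + A 1 + A 2 = A, B 0 + B 1 + B 2 = B, C 0 + C 1 + C 2 = C, VV γ Λ s z w = V,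
    4 / dl z ^ 2 = g at *
  refine (div_pos (sub_pos.2 h9) (by positivity : 0 < s * V)).trans_eq ?_
  field_simp
  linear_combination s ^ 2 * V ^ 2 * h5

theorem chi_zero {k : Fin 3} {z : ℂ} (hb : 1 / 2 ≤ B γ k z) : chi γ Λ k z = 0 := by
  have hr := h.r2
  have hΛ := h.one
  have : Λ ≤ Real.log (1 + (γ ^ 2 - 1)⁻¹ * (B γ k z * B γ k z)) := by
    refine (Real.le_log_iff_exp_le (by positivity)).2 (le_add_of_nonneg_of_le zero_le_one ?_)
    rw [le_inv_mul_iff₀ hr]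
    nlinarith [h.big]
  refine S_zero ?_
  rw [div_mul_eq_mul_div]
  linarith [(le_div_iff₀ (by positivity)).2 (mul_le_mul_of_nonneg_left this (by norm_num : (0 : ℝ) ≤ 4))]

theorem chi_one {k : Fin 3} {z : ℂ} (hb : |B γ k z| < (γ - 1) / 8) : chi γ Λ k z = 1 := by
  have hr := h.r2
  have hΛ := h.one
  have h1 : (γ ^ 2 - 1)⁻¹ * (B γ k z * B γ k z) ≤ 1 / 2 := by
    rw [inv_mul_le_iff₀ hr]
    nlinarith [abs_lt.1 hb, h.lo, h.hi]
  have h2 := Real.log_le_sub_one_of_pos (x := 1 + (γ ^ 2 - 1)⁻¹ * (B γ k z * B γ k z))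
    (by positivity [mul_self_nonneg (B γ k z)])
  refine S_one ?_
  rw [div_mul_eq_mul_div]
  linarith [(div_le_iff₀ (by positivity : 0 < Λ)).2 (show 4 * Real.log (1 + (γ ^ 2 - 1)⁻¹ *
    (B γ k z * B γ k z)) ≤ 2 * Λ by linarith)]

theorem th_near {k : Fin 3} {z : ℂ} (hz : 0 < dl z) (hb : |B γ k z| < (γ - 1) / 8) (w : ℂ) :
    th γ Λ s (z, w) = -s⁻¹ * Real.log (Real.exp (-s * Real.log (P0 z w)) +
      Real.exp (-s * Real.log (P1 γ k z w))) := by
  have hs := h.s0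
  have h1 := h.P1_pos k hz w
  have h2 : Real.exp (s * (Real.log (P0 z w) - Real.log (P1 γ k z w))) ≤ 2 := by
    have h3 := Real.log_le_log (P0_pos hz w) (h.ratio hz hb w)
    rw [Real.log_mul two_ne_zero h1.ne'] at h3
    rw [← Real.le_log_iff_exp_le two_pos]
    nlinarith [h.s1, Real.log_pos one_lt_two]
  rw [th, VV, Finset.sum_eq_single k (fun i _ e => by
    rw [h.chi_zero (h.B_other e hz (abs_lt.1 hb).2), zero_mul]) (by simp), h.chi_one hb, KK,
    kap_eq h2, show 1 + 1 * Real.exp (s * (Real.log (P0 z w) - Real.log (P1 γ k z w))) =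
      Real.exp (s * Real.log (P0 z w)) * (Real.exp (-s * Real.log (P0 z w)) +
        Real.exp (-s * Real.log (P1 γ k z w))) by simp [mul_add, ← Real.exp_add, mul_sub]; ring,
    Real.log_mul (by positivity) (by positivity), Real.log_exp]
  field_simp
  ring

theorem th_rm {k : Fin 3} {z : ℂ} (hz : 0 < dl z) (hb : |B γ k z| < (γ - 1) / 8) (w : ℂ) :
    th γ Λ s (rm γ k z, w) = th γ Λ s (z, w) := by
  rw [h.th_near hz hb, h.th_near (k := k) (h.rm_pos k hz) (by rwa [h.B_rm k hz, abs_neg]),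
    h.P0_rm k hz, h.P1_rm k hz, add_comm]

theorem th_sm {j : Fin 3} {z w : ℂ} (hz : 0 < dl z) (ha : |A γ j z| < (γ - 1) / 8)
    (hw : ‖w‖ < 3 / 2) :
    th γ Λ s (sm γ j z, sm γ j w) = Real.log (JS γ j w) + th γ Λ s (z, w) := by
  have hJ := (h.JS_pos j hw).ne'
  have e : VV γ Λ s (sm γ j z) (sm γ j w) = VV γ Λ s z w := by
    rw [VV, VV, ← (Equiv.subLeft (-j)).sum_comp]
    refine congrArg _ (Finset.sum_congr rfl fun k _ => ?_)
    rw [Equiv.subLeft_apply]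
    rcases eq_or_ne j k with rfl | e
    · rw [(by decide : ∀ j : Fin 3, -j - j = j), h.chi_zero (h.B_far hz (abs_lt.1 ha).2),
        h.chi_zero (h.B_far (h.sm_pos j hz) (by linarith [h.A_sm j hz, (abs_lt.1 ha).1])),
        zero_mul, zero_mul]
    · rw [chi, KK, h.B_sm e hz, h.P0_sm j hz hw, h.P1_sm e hz hw, Real.log_mul hJ (P0_pos hz w).ne',
        Real.log_mul hJ (h.P1_pos k hz w).ne', add_sub_add_left_eq_sub, chi, KK]
  rw [th, th, e, h.P0_sm j hz hw, Real.log_mul hJ (P0_pos hz w).ne', add_sub_assoc]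

end Par

end Pool.Agent.MP_6b7ec3_an.Sh
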