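import Mathlib.Geometry.Manifold.MFDeriv.Basic
import Mathlib.Geometry.Manifold.ContMDiff.Defs
import Pool.Agent.MP_6b7ec3_an.Sh.Hex
import Pool.Agent.MP_6b7ec3_an.Sh.Psh
import Pool.Agent.MP_6b7ec3_an.Sh.Sup
import Pool.Agent.MP_6b7ec3_an.Sh.Fun

/-! The surface, the domain, its defining function and the bounded holomorphic function. -/

open Set Topology Filter Complex
open scoped ContDiff ComplexConjugate Manifold

namespace Pool.Agent.MP_6b7ec3_an.Sh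

variable {γ Λ s : ℝ}

namespace Ok

variable (h : Ok γ)
include h

theorem exists_A : ∃ z ∈ Nb γ, sm γ 0 z ∈ Nb γ := by
  have h1 := h.lo
  have h2 := h.hi
  obtain ⟨t, ht, e⟩ := intermediate_value_Icc' (by norm_num : (0 : ℝ) ≤ 1 / 2)
    (f := fun t => γ * (1 + t * t) - 4 * t) (by fun_prop)
    (show 0 ∈ _ from ⟨by linarith, by linarith⟩)
  have h3 : 0 < dl t := by
    rw [dl, normSq_ofReal]
    nlinarith [ht.1, ht.2]
  have h4 : A γ 0 t = 0 := div_eq_zero_iff.2 (.inl (by simpa [qa, nn, ip, u] using e))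
  have h5 := h4.trans_lt h.eps
  have h6 : (t : ℂ) ∈ Nb γ := by
    refine ⟨h3, fun j => ?_, fun k => (neg_lt_zero.2 h.eps).trans (div_pos ?_ h3)⟩
    · rcases eq_or_ne j 0 with rfl | c
      · linarith
      · linarith [h.A_other c h3 h5]
    · fin_cases k <;> simp [qb, nn, ip, u] <;> nlinarith [ht.1, ht.2]
  exact ⟨t, h6, h.sm_mem h6 h5⟩

theorem exists_B : ∃ z ∈ Nb γ, rm γ 0 z ∈ Nb γ := by
  have h1 := h.lo
  obtain ⟨t, ht, e⟩ := intermediate_value_Icc (by norm_num : (-1 : ℝ) ≤ 0)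
    (f := fun t => 1 + t * t + 2 * γ * t) (by fun_prop) (show 0 ∈ _ from ⟨by linarith, by linarith⟩)
  have h3 : 0 < dl t := by
    rw [dl, normSq_ofReal]
    have : -1 < t := ht.1.lt_of_ne (by rintro rfl; linarith)
    nlinarith [ht.2]
  have h4 : B γ 0 t = 0 := div_eq_zero_iff.2 (.inl (by simpa [qb, nn, ip, u] using e))
  have h5 := h4.trans_lt h.eps
  have h6 : (t : ℂ) ∈ Nb γ := by
    refine ⟨h3, fun k => (neg_lt_zero.2 h.eps).trans (div_pos ?_ h3), fun j => ?_⟩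
    · fin_cases k <;> simp [qa, nn, ip, u] <;> nlinarith [ht.1, ht.2, sq_nonneg (t + 1)]
    · rcases eq_or_ne j 0 with rfl | c
      · linarith
      · linarith [h.B_other c h3 h5]
  exact ⟨t, h6, h.rm_mem h6 h5⟩

theorem conn {T : Set ℂ} (hT : IsPreconnected T) (h1 : ∀ w, 0 < dl w → w ∈ T)
    (h2 : T ⊆ Metric.ball 0 (3 / 2)) : IsConnected (⋃ i, h.G.j i '' Nb γ ×ˢ T) := by
  have key : ∀ {v x y}, rel γ v x y → 0 < dl x.2 → 0 < dl y.2 → ∀ i : Bool × Bool,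
      (h.G.j i '' Nb γ ×ˢ T ∩ h.G.j (i.1 ^^ v.1, i.2 ^^ v.2) '' Nb γ ×ˢ T).Nonempty :=
    fun hr hx hy i => ⟨_, ⟨_, ⟨(cc_mem _ hr.choose_spec.1.1).1, h1 _ hx⟩, rfl⟩,
      _, ⟨(cc_mem _ hr.choose_spec.2.2.1).1, h1 _ hy⟩, h.j_rel hr i⟩
  obtain ⟨z, a1, a2⟩ := h.exists_A
  obtain ⟨z', b1, b2⟩ := h.exists_B
  have a3 : (z, 0) ∈ Y0 γ := mem_Y0 a1 dl_zero.le
  have b3 : (rm γ 0 z', 0) ∈ Y0 γ := mem_Y0 b2 dl_zero.le
  have a := key (v := (true, false)) (y := (sm γ 0 z, sm γ 0 0)) ⟨_, ⟨a3, a3, 0, rfl⟩, a3,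
    mem_Y0 a2 (h.sm_pos 0 dl_zero).le, 0, rfl⟩ dl_zero (h.sm_pos 0 dl_zero)
  have b := key (v := (false, true)) (x := (z', 0)) ⟨_, ⟨mem_Y0 b1 dl_zero.le, b3, 0, rfl⟩, b3, b3,
    0, rfl⟩ dl_zero dl_zero
  refine IsConnected.iUnion_of_reflTransGen (fun i => (h.isConnected_Nb.prod
    ⟨⟨0, h1 0 dl_zero⟩, hT⟩).image _ ((h.G.j_continuousOn i).mono (prod_mono_right h2))) ?_
  rintro ⟨x, y⟩ ⟨x', y'⟩
  refine .trans (b := (x', y)) ?_ ?_ <;> cases x <;> cases x' <;> cases y <;> cases y' <;>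
    first | exact .refl | exact .single (a _) | exact .single (b _)

theorem connectedSpace : ConnectedSpace h.G.X := by
  rw [connectedSpace_iff_univ]
  convert h.conn (convex_ball 0 (3 / 2)).isPreconnected
    (fun w hw => mem_ball_zero_iff.2 (norm_lt hw.le)) subset_rfl using 1
  exact (eq_univ_iff_forall.2 fun x => mem_iUnion.2 (h.G.exists_j x)).symm

end Ok

/-- The weight in the chart with orientation `b`. -/
noncomputable def thc (γ Λ s : ℝ) (b : Bool) (q : ℂ × ℂ) : ℝ := th γ Λ s (cc b q)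

theorem dl_cc (b : Bool) (p : ℂ × ℂ) : dl (cc b p).1 = dl p.1 := by cases b <;> simp [cc, cj, dl]

namespace Par

variable (h : Par γ Λ s)
include h

theorem cd_thc (b : Bool) {p : ℂ × ℂ} (hz : 0 < dl p.1) : ContDiffAt ℝ ∞ (thc γ Λ s b) p := by
  refine (h.cd_th (dl_cc b p ▸ hz)).comp p ?_
  cases b
  · exact contDiffAt_id
  · exact (conjCLE.contDiff.contDiffAt.comp p contDiffAt_fst).prodMk contDiffAt_snd

theorem cd_thc2 (b : Bool) {p : ℂ × ℂ} (hp : p ∈ h.G.Y) : ContDiffAt ℝ 2 (thc γ Λ s b) p :=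
  (h.cd_thc b hp.1.1).of_le two_le_infty

theorem super (b : Bool) {p : ℂ × ℂ} (hz : 0 < dl p.1) (hw : dl p.2 = 0) :
    0 < Lap (thc γ Λ s b) p (1, 0) - s * Grd (thc γ Λ s b) p (1, 0) := by
  have h1 := (h.cd_thc b hz).of_le two_le_infty
  rw [Lap_fst h1, Grd_fst (h1.differentiableAt (by norm_num))]
  obtain ⟨x, y, c, h2, h3⟩ := h.jet_th (dl_cc b p ▸ hz) hw
  cases b
  · exact h3.trans_eq (by rw [← h2.lap, ← h2.grd]; rfl)
  · exact h3.trans_eq (by rw [← h2.conj'.lap, ← neg_sq y, ← h2.conj'.grd]; rfl)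

theorem rho_S (x y : ℂ × ℂ) : rS γ true x y → rho (th γ Λ s) y = rho (th γ Λ s) x := by
  rintro ⟨hx, hy, j, rfl⟩
  have h1 := h.JS_pos j (Y0_norm hx)
  change rho _ (sm γ j x.1, sm γ j x.2) = _
  rw [rho, h.th_sm hx.1.1 (abs_lt.2 ⟨hx.1.2.1 j, h.of_sm hx.1.1 hy.1⟩) (Y0_norm hx),
    h.dl_sm j (Y0_norm hx), neg_add, Real.exp_add, Real.exp_neg, Real.exp_log h1, rho]
  field_simp

theorem rho_R (x y : ℂ × ℂ) : rR γ true x y → rho (th γ Λ s) y = rho (th γ Λ s) x := by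
  rintro ⟨hx, hy, k, rfl⟩
  change rho _ (rm γ k x.1, x.2) = _
  rw [rho, h.th_rm hx.1.1 (abs_lt.2 ⟨hx.1.2.2 k, h.of_rm hx.1.1 hy.1⟩), rho]

/-- The defining function on the surface. -/
noncomputable def ρ : h.G.X → ℝ :=
  h.G.lift (fun i => rho (thc γ Λ s i.2)) (h.compat h.rho_S h.rho_R)

theorem ρ_j (i : Bool × Bool) {p : ℂ × ℂ} (hp : p ∈ h.G.Y) :
    h.ρ (h.G.j i p) = rho (thc γ Λ s i.2) p := h.G.lift_j _ _ i hp

theorem ρ_ev (i : Bool × Bool) {p : ℂ × ℂ} (hp : p ∈ h.G.Y) :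
    h.ρ ∘ (h.G.chart i).symm =ᶠ[𝓝 p] rho (thc γ Λ s i.2) := h.G.lift_ev _ _ i hp

theorem contMDiff_ρ : ContMDiff 𝓘(ℝ, ℂ × ℂ) 𝓘(ℝ, ℝ) ∞ h.ρ := by
  intro x
  obtain ⟨i, p, hp, h1, h2, h3⟩ := h.G.exists_chart x
  have h4 := cd_rho (h.cd_thc i.2 hp.1.1)
  rw [contMDiffAt_iff]
  refine ⟨h2 ▸ h.G.continuousAt_lift _ _ i hp h4.continuousAt, ?_⟩
  simp only [mfld_simps, h1, h3, contDiffWithinAt_univ]
  exact h4.congr_of_eventuallyEq (h.ρ_ev i hp)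

theorem mfderiv_ρ_ne {x : h.G.X} (hx : h.ρ x = 0) :
    mfderiv 𝓘(ℝ, ℂ × ℂ) 𝓘(ℝ, ℝ) h.ρ x ≠ 0 := by
  obtain ⟨i, p, hp, h1, h2, h3⟩ := h.G.exists_chart x
  rw [((h.contMDiff_ρ x).mdifferentiableAt (by simp)).mfderiv]
  simp only [writtenInExtChartAt, mfld_simps, h1, h3, fderivWithin_univ]
  rw [(h.ρ_ev i hp).fderiv_eq]
  rw [h2, h.ρ_j i hp, rho_eq_zero_iff] at hx
  exact fderiv_rho_ne (h.cd_thc2 _ hp) hx

/-- The domain. -/
def Ω : Set h.G.X := {x | h.ρ x < 0}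

theorem frontier_sub {x : h.G.X} (hx : x ∈ frontier h.Ω) : h.ρ x = 0 :=
  frontier_lt_subset_eq h.contMDiff_ρ.continuous continuous_const hx

theorem j_mem_Ω (i : Bool × Bool) {p : ℂ × ℂ} (hp : p ∈ h.G.Y) : h.G.j i p ∈ h.Ω ↔ 0 < dl p.2 := by
  change h.ρ _ < 0 ↔ _
  rw [h.ρ_j i hp, rho_neg_iff]

theorem isConnected_Ω : IsConnected h.Ω := by
  convert h.conn (convex_ball 0 1).isPreconnected
    (fun w hw => mem_ball_zero_iff.2 ((dl_pos_iff w).1 hw)) (Metric.ball_subset_ball (by norm_num))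
    using 1
  ext x
  constructor
  · intro hx
    obtain ⟨i, p, hp, rfl⟩ := h.G.exists_j x
    exact mem_iUnion.2 ⟨i, p, ⟨hp.1, mem_ball_zero_iff.2 ((dl_pos_iff _).1
      ((h.j_mem_Ω i hp).1 hx))⟩, rfl⟩
  · rintro ⟨_, ⟨i, rfl⟩, p, hp, rfl⟩
    have := (dl_pos_iff _).2 (mem_ball_zero_iff.1 hp.2)
    exact (h.j_mem_Ω i (mem_Y0 hp.1 this.le)).2 this

theorem isCompact_closure_Ω : IsCompact (closure h.Ω) := by
  have hK : IsCompact (⋃ i, (fun y => h.G.j i (cc i.2 y)) '' Hx γ ×ˢ {w | 0 ≤ dl w}) :=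
    isCompact_iUnion fun i => (h.isCompact_Hx.prod (isCompact_dl le_rfl)).image_of_continuousOn
      ((h.G.j_continuousOn i).comp (continuous_cc _).continuousOn fun y hy =>
        cc_mem _ (mem_Y0 (h.Hx_sub hy.1) hy.2))
  refine hK.closure_of_subset fun x hx => ?_
  obtain ⟨i, p, hp, rfl⟩ := h.G.exists_j x
  obtain ⟨v, y, h1, h2⟩ := h.fold (x := cc i.2 p) (cc_mem _ hp).1 ((h.j_mem_Ω i hp).1 hx).le
  exact mem_iUnion.2 ⟨_, y, h2, (h.j_rel h1 i).trans (by rw [cc_cc])⟩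

theorem frontier_nonempty : (frontier h.Ω).Nonempty := by
  have := h.connectedSpace
  refine nonempty_iff_ne_empty.2 fun e => ?_
  have h0 : dl 1 = 0 := by simp [dl]
  rcases isClopen_iff.1 (isClopen_iff_frontier_eq_empty.2 e) with h1 | h1
  · exact h.isConnected_Ω.nonempty.ne_empty h1
  · exact ((h.j_mem_Ω (true, true) (p := (0, 1)) (mem_Y0 h.zero_mem h0.ge)).1
      (h1 ▸ mem_univ _)).ne' h0

theorem exists_f : ∃ f : h.G.X → ℂ, MDifferentiableOn 𝓘(ℂ, ℂ × ℂ) 𝓘(ℂ, ℂ) f h.Ω ∧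
    (∃ C : ℝ, ∀ x ∈ h.Ω, ‖f x‖ ≤ C) ∧ ∃ x ∈ h.Ω, ∃ y ∈ h.Ω, f x ≠ f y := by
  obtain ⟨F, h1, h2, ⟨C, h3⟩, w, h4, h5⟩ := h.exists_fun
  have hc := h.compat (f := fun p => if 0 < dl p.2 then F p.2 else 0) (by
    rintro x _ ⟨hx, -, j, rfl⟩
    exact if_ctx_congr (by
      change 0 < dl (sm γ j x.2) ↔ _
      rw [h.dl_sm j (Y0_norm hx), mul_pos_iff_of_pos_left (h.JS_pos j (Y0_norm hx))])
      (fun c => h2 j _ c) fun _ => rfl) (by rintro x _ ⟨-, -, k, rfl⟩; rfl)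
  set f := h.G.lift (fun _ p => if 0 < dl p.2 then F p.2 else 0) hc
  have e : ∀ i, ∀ p ∈ h.G.Y, 0 < dl p.2 → f (h.G.j i p) = F p.2 := fun i p hp c =>
    (h.G.lift_j _ hc i hp).trans (if_pos c)
  refine ⟨f, fun x hx => ?_, ⟨C, fun x hx => ?_⟩, ?_⟩
  · obtain ⟨i, p, hp, e1, e2, e3⟩ := h.G.exists_chart x
    have c := (h.j_mem_Ω i hp).1 (e2 ▸ hx)
    have h6 : DifferentiableAt ℂ (fun p : ℂ × ℂ => if 0 < dl p.2 then F p.2 else 0) p :=
      ((h1 _ c).comp p differentiableAt_snd).congr_of_eventuallyEq (by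
        filter_upwards [(cd_dl p (m := 0)).continuousAt.preimage_mem_nhds (Ioi_mem_nhds c)] with q hq
          using if_pos hq)
    refine MDifferentiableAt.mdifferentiableWithinAt ?_
    rw [mdifferentiableAt_iff]
    refine ⟨e2 ▸ h.G.continuousAt_lift _ _ i hp h6.continuousAt, ?_⟩
    simp only [writtenInExtChartAt, mfld_simps, e1, e3, differentiableWithinAt_univ]
    exact h6.congr_of_eventuallyEq (h.G.lift_ev _ _ i hp)
  · obtain ⟨i, p, hp, rfl⟩ := h.G.exists_j x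
    have c := (h.j_mem_Ω i hp).1 hx
    exact e i p hp c ▸ h3 _ c
  · have a0 : (0, w) ∈ h.G.Y := mem_Y0 h.zero_mem h4.le
    have a1 : (0, 0) ∈ h.G.Y := mem_Y0 h.zero_mem dl_zero.le
    refine ⟨_, (h.j_mem_Ω (true, true) a0).2 h4, _, (h.j_mem_Ω (true, true) a1).2 dl_zero, ?_⟩
    rwa [e _ _ a0 h4, e _ _ a1 dl_zero]

end Par

theorem Par.psh {η : ℝ} (h : Par γ Λ (η / (1 - η))) (h0 : 0 < η) (h1 : η < 1) :
    ∃ ε : ℝ, 0 < ε ∧ ∀ (b : Bool), ∀ p ∈ h.G.Y, rho (thc γ Λ (η / (1 - η)) b) p < 0 →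
      -ε < rho (thc γ Λ (η / (1 - η)) b) p →
        ContDiffAt ℝ 2 (fun q => -(-rho (thc γ Λ (η / (1 - η)) b) q) ^ η) p ∧
          ∀ v : ℂ × ℂ, v ≠ 0 → 0 < Lap (fun q => -(-rho (thc γ Λ (η / (1 - η)) b) q) ^ η) p v := by
  have h2 : 0 < (γ - 1) / 16 := by linarith [h.lo]
  choose ε h3 h4 using fun b => exists_psh' (θ := thc γ Λ (η / (1 - η)) b) (isCompact_dl h2.le) h0 h1
    (fun p hp => (h.cd_thc b (h2.trans_le hp)).of_le two_le_infty)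
    fun p hp hw => h.super b (h2.trans_le hp) hw
  refine ⟨min (ε true) (ε false), lt_min (h3 _) (h3 _), fun b p hp h5 h6 =>
    h4 b p (h.bound hp.1) h5 (lt_of_le_of_lt (neg_le_neg ?_) h6)⟩
  cases b <;> simp

end Pool.Agent.MP_6b7ec3_an.Sh
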